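import Mathlib
import Pool.Agent.Helper11.MT.Final3
import Pool.Agent.Helper11.MT.Optim
import Pool.Agent.Helper99.MT2.Statement2

/-!
Interface of the sieve module for `S18343` (MP_be2988_nt): the third sieve sum and its constants.
-/

open Finset Filter Topology

namespace Pool.Agent.Helper11.BE

open Pool.Agent.Helper11.MT Pool.Agent.Helper99.MT2

/-- The sieve function: `K` forms `m + h i`, weights `q - (K + 1)`, sifting primes `≤ R` not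
dividing `V`. -/
noncomputable def G0 {V R K : ℕ} (h : Fin K → ℕ) (y : Finset (QT V R × Fin K) → ℝ) (m : ℕ) : ℝ :=
  AA (gk (K + 1)) y (Ymap h m)

/-- The normalising factor of the auxiliary form: sets of sifting primes `> Z` with product
`≤ R`. -/
noncomputable def HZ (κ V R Z : ℕ) : ℝ :=
  ∑ T : Finset (QT V R),
    if (∀ q ∈ T, Z < (q : ℕ)) ∧ Opt.nV T ≤ R then 1 / Opt.gV κ T else 0

/-- The third sieve sum: `c * m + j` has no sifting prime factor `> Z`. -/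
noncomputable def S3 {V R K : ℕ} (W v c : ℕ) (j : ℤ) (Z J : ℕ) (h : Fin K → ℕ)
    (y : Finset (QT V R × Fin K) → ℝ) : ℝ := by
  classical
  exact ∑' m : ℕ, if m ≡ v [MOD W] ∧ ∀ q ∈ PR V R, Z < q → ¬ ((q : ℤ) ∣ c * m + j) then
    w J m * (G0 h y m) ^ 2 else 0

/-- Upper bound for the third sieve sum. -/
def S3Statement : Prop :=
  ∀ (K : ℕ), 0 < K → ∀ (h : Fin K → ℕ) (V W R Z J v c : ℕ) (j : ℤ), 0 < W → W ∣ V → 0 < R →
    (∀ p : ℕ, p.Prime → p ≤ 256 * (K + 1) ^ 2 → p ∣ V) → Distinct V R h →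
    (∀ q ∈ PR V R, Z < q → ¬ q ∣ c) →
    (∀ q ∈ PR V R, Z < q → ∀ i, ¬ ((q : ℤ) ∣ j - c * h i)) →
    ∑' n, w J n ≤ 2 →
    ∀ y : Finset (QT V R × Fin K) → ℝ, (∀ U, 0 ≤ y U) → (∀ U, y U ≤ 1) →
      (∀ U U', U ⊆ U' → y U' ≤ y U) → (∀ U, R < nn U → y U = 0) →
      S3 W v c j Z J h y ≤
        (4 * EEg (K + 1) y / W + 16 * (R : ℝ) ^ 20 * ((2 / 3) ^ J * K32)) / HZ (K + 1) V R Z

/-- Lower bound for the normalising factor. -/
def HZStatement : Prop :=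
  ∃ c0 : ℝ, 0 < c0 ∧ ∀ κ : ℕ, 1 ≤ κ → ∀ᶠ J : ℕ in atTop, ∀ pe : ℕ, pe.Prime →
    c0 * (J / Real.log J) ≤ HZ κ (Wf (yJ J) pe * pe) (RK J) (J ^ 2)

/-- Lower bound for `φ(V) / V`. -/
def TotStatement : Prop :=
  ∃ c0 : ℝ, 0 < c0 ∧ ∀ᶠ J : ℕ in atTop, ∀ pe : ℕ, pe.Prime →
    c0 / Real.log J ≤
      (Nat.totient (Wf (yJ J) pe * pe) : ℝ) / ((Wf (yJ J) pe * pe : ℕ) : ℝ)

end Pool.Agent.Helper11.BE
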