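import Mathlib
import Pool.Agent.Helper11.MT.Sieve3
import Pool.Agent.Helper11.MT.Final1

/-!
The second sieve sum with two moduli `W ∣ V`: the sifting primes do not divide `V`, the
progression is modulo `W`.
-/

open Finset Filter Topology

namespace Pool.Agent.Helper11.BE

open Pool.Agent.Helper11.MT

section

variable {V R k : ℕ}

/-- The function to be summed over primes. -/
noncomputable def PhiV (W : ℕ) (h : Fin k → ℕ) (v : ℕ) (j : Fin k) (s : QT V R → Option (Fin k))
    (n : ℕ) : ℂ :=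
  (if ((v + h j : ℕ) : ZMod W) = (n : ZMod W) then (1 : ℂ) else 0) * ∏ p : Tn s, loc h j s n p

/-- The second sieve sum. -/
noncomputable def S2V (W : ℕ) (h : Fin k → ℕ) (v : ℕ) (G : Finset (QT V R × Fin k) → ℝ) (j : Fin k)
    (J : ℕ) : ℝ :=
  ∑' m, if m ≡ v [MOD W] then thetaR R (m + h j) * w J (m + h j) * (G (Ymap h m)) ^ 2 else 0

lemma norm_PhiV_le (W : ℕ) (h : Fin k → ℕ) (v : ℕ) (j : Fin k) (s : QT V R → Option (Fin k))
    (n : ℕ) : ‖PhiV W h v j s n‖ ≤ 1 := by
  unfold PhiV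
  rw [norm_mul, norm_prod]
  refine mul_le_one₀ ?_ (Finset.prod_nonneg fun _ _ => norm_nonneg _) ?_
  · split_ifs <;> simp
  · refine Finset.prod_le_one (fun _ _ => norm_nonneg _) fun p _ => norm_loc_le h j s n ?_
    obtain ⟨hp, -⟩ := mem_Tn.mp p.2
    exact (mem_PR.mp hp).2.1

/-- The sum of `PhiV` over primes. -/
noncomputable def PsiV (W : ℕ) (h : Fin k → ℕ) (v : ℕ) (j : Fin k) (J : ℕ)
    (s : QT V R → Option (Fin k)) : ℂ :=
  ∑' n, ((thetaR R n * w J n : ℝ) : ℂ) * PhiV W h v j s n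

lemma summable_theta_PhiV (W : ℕ) (h : Fin k → ℕ) (v : ℕ) (j : Fin k) (J : ℕ)
    (s : QT V R → Option (Fin k)) :
    Summable fun n => ((thetaR R n * w J n : ℝ) : ℂ) * PhiV W h v j s n := by
  refine Summable.of_norm_bounded (summable_thetaR_w R J) fun n => ?_
  rw [norm_mul, Complex.norm_real, Real.norm_eq_abs,
    abs_of_nonneg (mul_nonneg (thetaR_nonneg _ _) (w_nonneg _ _))]
  exact mul_le_of_le_one_right (mul_nonneg (thetaR_nonneg _ _) (w_nonneg _ _))
    (norm_PhiV_le W h v j s n)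

/-- Exact expansion of the second sieve sum. -/
lemma S2V_expand (W : ℕ) {h : Fin k → ℕ} (hd : Distinct V R h) (hg : ∀ q : QT V R, 1 ≤ gk k q)
    (v : ℕ) (G : Finset (QT V R × Fin k) → ℝ) (j : Fin k) (hj : h j ≤ R) (J : ℕ) :
    ((S2V W h v G j J : ℝ) : ℂ) = ∑ s : QT V R → Option (Fin k),
      if ∀ q, s q ≠ some j then
        ((BB (gk k) (univ.erase j) (fun Y => (G Y) ^ 2) s : ℝ) : ℂ) * PsiV W h v j J s else 0 := by
  have hk : 0 < k := Fin.pos j
  -- pointwise
  have h1 : ∀ m, (((if m ≡ v [MOD W] then thetaR R (m + h j) * w J (m + h j) *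
      (G (Ymap h m)) ^ 2 else 0 : ℝ)) : ℂ) =
      ∑ s : QT V R → Option (Fin k), if ∀ q, s q ≠ some j then
        ((BB (gk k) (univ.erase j) (fun Y => (G Y) ^ 2) s : ℝ) : ℂ) *
        (((thetaR R (m + h j) * w J (m + h j) : ℝ) : ℂ) * PhiV W h v j s (m + h j)) else 0 := by
    intro m
    by_cases hn : (m + h j).Prime ∧ R < m + h j
    · obtain ⟨f, hf⟩ := exists_gr (Y := Ymap (W := V) (R := R) h m)
        (isPar_of_subset_Ymap hd (Finset.Subset.refl _))
      have h2 := expansion (QT V R) (Fin k) (gk k) hg (univ.erase j) (fun Y => (G Y) ^ 2) f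
      have h3 : m ≡ v [MOD W] ↔ ((v + h j : ℕ) : ZMod W) = ((m + h j : ℕ) : ZMod W) := by
        rw [ZMod.natCast_eq_natCast_iff]
        constructor
        · intro h4
          exact (h4.add_right _).symm
        · intro h4
          exact (Nat.ModEq.add_right_cancel' _ h4).symm
      by_cases hm : m ≡ v [MOD W]
      · rw [if_pos hm, ← hf, h2]
        rw [Complex.ofReal_mul, Complex.ofReal_sum, Finset.mul_sum]
        refine Finset.sum_congr rfl fun s _ => ?_
        have hpb := prod_bas hn.1 hn.2 hf hk s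
        rw [Complex.ofReal_mul (BB (gk k) (univ.erase j) (fun Y => (G Y) ^ 2) s), hpb]
        split_ifs with hs
        · unfold PhiV
          rw [if_pos (h3.mp hm)]
          ring
        · ring
      · rw [if_neg hm, Complex.ofReal_zero]
        symm
        refine Finset.sum_eq_zero fun s _ => ?_
        split_ifs
        · unfold PhiV
          rw [if_neg (fun h4 => hm (h3.mpr h4))]
          ring
        · rfl
    · have h2 : thetaR R (m + h j) = 0 := by unfold thetaR; rw [if_neg hn]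
      rw [h2]
      simp
  have h5 : ((S2V W h v G j J : ℝ) : ℂ) = ∑' m, (((if m ≡ v [MOD W] then
      thetaR R (m + h j) * w J (m + h j) * (G (Ymap h m)) ^ 2 else 0 : ℝ)) : ℂ) := by
    unfold S2V
    rw [Complex.ofReal_tsum]
  rw [h5, tsum_congr h1]
  have h6 : ∀ s : QT V R → Option (Fin k), Summable fun m =>
      if ∀ q, s q ≠ some j then
        ((BB (gk k) (univ.erase j) (fun Y => (G Y) ^ 2) s : ℝ) : ℂ) *
        (((thetaR R (m + h j) * w J (m + h j) : ℝ) : ℂ) * PhiV W h v j s (m + h j)) else 0 := by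
    intro s
    split_ifs
    · refine Summable.mul_left _ ?_
      have h7 := (summable_nat_add_iff (h j)).mpr (summable_theta_PhiV W h v j J s)
      exact h7
    · exact summable_zero
  rw [Summable.tsum_finsetSum (fun s _ => h6 s)]
  refine Finset.sum_congr rfl fun s _ => ?_
  split_ifs
  · rw [tsum_mul_left]
    congr 1
    unfold PsiV
    rw [← (summable_theta_PhiV W h v j J s).sum_add_tsum_nat_add (h j)]
    rw [Finset.sum_eq_zero, zero_add]
    intro n hn
    rw [Finset.mem_range] at hn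
    have : thetaR R n = 0 := by
      unfold thetaR
      rw [if_neg]
      rintro ⟨-, h7⟩
      omega
    rw [this]
    simp
  · exact tsum_zero

/-- Bound for `PsiV` in terms of the character sums. -/
lemma norm_PsiV_le {W : ℕ} [NeZero W] {h : Fin k → ℕ} (hd : Distinct V R h) (v : ℕ)
    {j : Fin k} (hv : Nat.Coprime (v + h j) W) (J : ℕ) {s : QT V R → Option (Fin k)}
    (hs : ∀ q, s q ≠ some j) :
    ‖PsiV W h v j J s‖ ≤ (1 / W.totient * ∏ p ∈ Tn s, (1 / (p.totient : ℝ))) *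
      ∑ c : CF W (Tn s), ‖MM (xi c) J (thetaR R)‖ := by
  have ha : IsUnit ((v + h j : ℕ) : ZMod W) := by rwa [ZMod.isUnit_iff_coprime]
  have hb : ∀ p : Tn s, IsUnit (bb h j s p) := fun p => bb_isUnit hd hs (Tn_subset s p.2)
  have h1 : ∀ n, ((thetaR R n * w J n : ℝ) : ℂ) * PhiV W h v j s n =
      ∑ c : CF W (Tn s), ((1 / W.totient * ∏ p : Tn s, (1 / ((p : ℕ).totient : ℂ))) *
        (c.1 ((v + h j : ℕ) : ZMod W)⁻¹ * ∏ p : Tn s, (c.2 p).1 (bb h j s p)⁻¹)) *
        (((thetaR R n : ℝ) : ℂ) * xi c n * (w J n : ℂ)) := by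
    intro n
    by_cases hn : n.Prime ∧ R < n
    · have hcop : ∀ p ∈ Tn s, n.Coprime p := by
        intro p hp
        refine (Nat.coprime_primes hn.1 (Tn_prime p hp)).mpr ?_
        have := (mem_PR.mp (Tn_subset s hp)).1
        omega
      have h2 := expand_CF (T := Tn s) Tn_prime ha (fun p => bb h j s p) hb hcop
      unfold PhiV loc
      rw [h2, Finset.mul_sum, Finset.mul_sum]
      refine Finset.sum_congr rfl fun c _ => ?_
      push_cast
      ring
    · have h2 : thetaR R n = 0 := by unfold thetaR; rw [if_neg hn]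
      rw [h2]
      simp
  unfold PsiV
  rw [tsum_congr h1, Summable.tsum_finsetSum]
  · refine (norm_sum_le _ _).trans ?_
    rw [Finset.mul_sum]
    refine Finset.sum_le_sum fun c _ => ?_
    rw [tsum_mul_left, norm_mul, norm_mul]
    have h3 : ‖(1 / (W.totient : ℂ) * ∏ p : Tn s, (1 / ((p : ℕ).totient : ℂ)))‖ =
        1 / W.totient * ∏ p ∈ Tn s, (1 / (p.totient : ℝ)) := by
      rw [norm_mul, norm_prod, ← Finset.prod_coe_sort (Tn s)]
      simp
    rw [h3]
    have h4 : ‖c.1 ((v + h j : ℕ) : ZMod W)⁻¹ * ∏ p : Tn s, (c.2 p).1 (bb h j s p)⁻¹‖ ≤ 1 := by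
      rw [norm_mul, norm_prod]
      refine mul_le_one₀ (DirichletCharacter.norm_le_one _ _)
        (Finset.prod_nonneg fun _ _ => norm_nonneg _) ?_
      exact Finset.prod_le_one (fun _ _ => norm_nonneg _)
        fun p _ => DirichletCharacter.norm_le_one _ _
    have h5 : (0 : ℝ) ≤ 1 / W.totient * ∏ p ∈ Tn s, (1 / (p.totient : ℝ)) :=
      mul_nonneg (one_div_nonneg.mpr (Nat.cast_nonneg _))
        (Finset.prod_nonneg fun _ _ => one_div_nonneg.mpr (Nat.cast_nonneg _))
    have h6 : ‖MM (xi c) J (thetaR R)‖ = ‖∑' n, ((thetaR R n : ℝ) : ℂ) * xi c n * (w J n : ℂ)‖ := rfl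
    rw [← h6]
    refine mul_le_mul_of_nonneg_right ?_ (norm_nonneg _)
    exact mul_le_of_le_one_right h5 h4
  · intro c _
    exact (MM_summable_theta R J (norm_xi_le c)).mul_left _

/-- The weighted error over the family. -/
noncomputable def ErrV (W V R J : ℕ) : ℝ :=
  ∑ T ∈ TS V R, if T.Nonempty then
    ((∏ p ∈ T, p : ℕ) : ℝ) ^ (-(3 / 4) : ℝ) * ∑ c : CF W T, ‖MM (xi c) J (thetaR R)‖ else 0

/-- Error bound for the second sieve sum. -/
theorem S2V_error {W : ℕ} [NeZero W] {h : Fin k → ℕ} (hd : Distinct V R h)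
    (hg : ∀ q : QT V R, 1 ≤ gk k q) (v : ℕ) {j : Fin k} (hv : Nat.Coprime (v + h j) W)
    (hj : h j ≤ R) {y : Finset (QT V R × Fin k) → ℝ} (hy0 : ∀ U, 0 ≤ y U)
    (hya : ∀ U V, U ⊆ V → y V ≤ y U) (hys : ∀ U, R < nn U → y U = 0)
    (hbig : ∀ p ∈ PR V R, (k : ℝ) * (2 * 4 ^ k) * (1 / p.totient) ≤ (p : ℝ) ^ (-(3 / 4) : ℝ))
    (J : ℕ) :
    ‖((S2V W h v (AA (gk k) y) j J : ℝ) : ℂ) -
      ((BB (gk k) (univ.erase j) (fun Y => (AA (gk k) y Y) ^ 2) (fun _ => none) : ℝ) : ℂ) *
        PsiV W h v j J (fun _ : QT V R => none)‖ ≤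
      Real.exp ((#(univ.erase j) : ℝ) ^ 2 * ∑ q : QT V R, 1 / (gk k q) ^ 2) *
        QI (gk k) (univ.erase j) y * (1 / W.totient) * ErrV W V R J := by
  classical
  set C0 := Real.exp ((#(univ.erase j) : ℝ) ^ 2 * ∑ q : QT V R, 1 / (gk k q) ^ 2) with hC0
  set QQ := QI (gk k) (univ.erase j) y with hQQ
  have hQQ0 : 0 ≤ QQ := by
    rw [hQQ]
    unfold QI
    refine Finset.sum_nonneg fun U _ => div_nonneg (sq_nonneg _) ?_
    unfold gU
    exact Finset.prod_nonneg fun τ _ => (zero_le_one.trans (hg τ.1))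
  have hC00 : 0 ≤ C0 := (Real.exp_pos _).le
  set F : Finset ℕ → ℝ := fun T => if T.Nonempty then
    C0 * QQ * (1 / W.totient) * ((2 * 4 ^ k) ^ #T * ∏ p ∈ T, (1 / (p.totient : ℝ))) *
      ∑ c : CF W T, ‖MM (xi c) J (thetaR R)‖ else 0 with hF
  have hF0 : ∀ T, 0 ≤ F T := by
    intro T
    rw [hF]
    simp only
    split_ifs
    · refine mul_nonneg (mul_nonneg (mul_nonneg (mul_nonneg hC00 hQQ0)
        (one_div_nonneg.mpr (Nat.cast_nonneg _))) (mul_nonneg (pow_nonneg (two4_nn k) _)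
        (Finset.prod_nonneg fun _ _ => one_div_nonneg.mpr (Nat.cast_nonneg _))))
        (Finset.sum_nonneg fun _ _ => norm_nonneg _)
    · exact le_rfl
  -- each term
  set t : (QT V R → Option (Fin k)) → ℂ := fun s => if ∀ q, s q ≠ some j then
    ((BB (gk k) (univ.erase j) (fun Y => (AA (gk k) y Y) ^ 2) s : ℝ) : ℂ) * PsiV W h v j J s else 0
    with ht
  have hterm : ∀ s : QT V R → Option (Fin k), s ≠ (fun _ => none) →
      ‖t s‖ ≤ if Tn s ∈ TS V R then F (Tn s) else 0 := by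
    intro s hs
    have hne : (Tn s).Nonempty := by
      rw [Finset.nonempty_iff_ne_empty]
      intro h1
      exact hs (Tn_empty_iff.mp h1)
    rw [ht]
    simp only
    by_cases hsj : ∀ q, s q ≠ some j
    · rw [if_pos hsj]
      by_cases hTS : Tn s ∈ TS V R
      · rw [if_pos hTS, hF]
        simp only
        rw [if_pos hne, norm_mul, Complex.norm_real, Real.norm_eq_abs]
        have h1 := upper (QT V R) (Fin k) (gk k) hg (univ.erase j) y hy0 hya s
        rw [Fintype.card_fin, ← card_Tn] at h1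
        have h2 := norm_PsiV_le hd v hv J hsj
        calc |BB (gk k) (univ.erase j) (fun Y => (AA (gk k) y Y) ^ 2) s| * ‖PsiV W h v j J s‖ ≤
            (C0 * (2 * 4 ^ k) ^ #(Tn s) * QQ) *
            ((1 / W.totient * ∏ p ∈ Tn s, (1 / (p.totient : ℝ))) *
              ∑ c : CF W (Tn s), ‖MM (xi c) J (thetaR R)‖) :=
              mul_le_mul h1 h2 (norm_nonneg _)
                (mul_nonneg (mul_nonneg hC00 (pow_nonneg (two4_nn k) _)) hQQ0)
          _ = _ := by ring
      · rw [if_neg hTS]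
        have h1 : R ^ 2 < ∏ q ∈ supp s, (q : ℕ) := by
          rw [← prod_Tn]
          by_contra hcon
          push Not at hcon
          exact hTS (mem_TS.mpr ⟨Tn_subset s, hcon⟩)
        have h2 := support (QT V R) (Fin k) (gk k) hg (univ.erase j) y (fun q => (q : ℕ))
          (fun q => (qt_prime q).one_le) R hys s h1
        rw [h2]
        simp
    · rw [if_neg hsj, norm_zero]
      split_ifs
      · exact hF0 _
      · exact le_rfl
  rw [S2V_expand W hd hg v (AA (gk k) y) j hj J]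
  have hmain : t (fun _ => none) =
      ((BB (gk k) (univ.erase j) (fun Y => (AA (gk k) y Y) ^ 2) (fun _ => none) : ℝ) : ℂ) *
        PsiV W h v j J (fun _ : QT V R => none) := by
    rw [ht]
    simp only
    rw [if_pos]
    intro q
    simp
  rw [← hmain]
  have hsplit : ∑ s, t s - t (fun _ => none) = ∑ s ∈ univ.erase (fun _ => none), t s := by
    rw [← Finset.add_sum_erase univ t (Finset.mem_univ (fun _ => none))]
    ring
  have hsplit' : (∑ s : QT V R → Option (Fin k), if ∀ q, s q ≠ some j then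
      ((BB (gk k) (univ.erase j) (fun Y => (AA (gk k) y Y) ^ 2) s : ℝ) : ℂ) * PsiV W h v j J s else 0) -
      t (fun _ => none) = ∑ s ∈ univ.erase (fun _ => none), t s := hsplit
  rw [hsplit']
  refine (norm_sum_le _ _).trans ?_
  have h3 : ∑ s ∈ univ.erase (fun _ => none), ‖t s‖ ≤
      ∑ s : QT V R → Option (Fin k), if Tn s ∈ TS V R then F (Tn s) else 0 := by
    refine (Finset.sum_le_sum fun s hs => hterm s (Finset.mem_erase.mp hs).1).trans ?_
    refine Finset.sum_le_sum_of_subset_of_nonneg (Finset.erase_subset _ _) fun s _ _ => ?_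
    split_ifs
    · exact hF0 _
    · exact le_rfl
  refine h3.trans ?_
  rw [← Finset.sum_filter]
  rw [← Finset.sum_fiberwise_of_maps_to (s := univ.filter (fun s => Tn s ∈ TS V R)) (t := TS V R)
    (g := Tn) (fun s hs => (Finset.mem_filter.mp hs).2)]
  have h4 : ∀ T ∈ TS V R, ∑ s ∈ (univ.filter (fun s : QT V R → Option (Fin k) =>
      Tn s ∈ TS V R)).filter (fun s => Tn s = T), F (Tn s) ≤ (k : ℝ) ^ #T * F T := by
    intro T _
    have h5 : ∀ s ∈ (univ.filter (fun s : QT V R → Option (Fin k) =>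
      Tn s ∈ TS V R)).filter (fun s => Tn s = T), F (Tn s) = F T := by
      intro s hs
      rw [(Finset.mem_filter.mp hs).2]
    rw [Finset.sum_congr rfl h5, Finset.sum_const, nsmul_eq_mul]
    refine mul_le_mul_of_nonneg_right ?_ (hF0 T)
    have h6 : #((univ.filter (fun s : QT V R → Option (Fin k) =>
      Tn s ∈ TS V R)).filter (fun s => Tn s = T)) ≤ k ^ #T := by
      refine (Finset.card_le_card ?_).trans (card_Tn_fiber_le T)
      intro s hs
      rw [Finset.mem_filter] at hs ⊢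
      exact ⟨Finset.mem_univ _, hs.2⟩
    exact_mod_cast h6
  refine (Finset.sum_le_sum h4).trans ?_
  unfold ErrV
  rw [Finset.mul_sum]
  refine Finset.sum_le_sum fun T hT => ?_
  rw [hF]
  simp only
  by_cases hne : T.Nonempty
  · rw [if_pos hne, if_pos hne]
    have h8 : (k : ℝ) ^ #T * ((2 * 4 ^ k) ^ #T * ∏ p ∈ T, (1 / (p.totient : ℝ))) ≤
        ((∏ p ∈ T, p : ℕ) : ℝ) ^ (-(3 / 4) : ℝ) := by
      rw [Nat.cast_prod, ← Real.finsetProd_rpow _ _ (fun p _ => Nat.cast_nonneg p)]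
      rw [← Finset.prod_const, ← Finset.prod_const, ← Finset.prod_mul_distrib,
        ← Finset.prod_mul_distrib]
      refine Finset.prod_le_prod (fun p _ => mul_nonneg (Nat.cast_nonneg _)
        (mul_nonneg (two4_nn k) (one_div_nonneg.mpr (Nat.cast_nonneg _)))) fun p hp => ?_
      rw [← mul_assoc]
      exact hbig p ((mem_TS.mp hT).1 hp)
    have h9 : 0 ≤ ∑ c : CF W T, ‖MM (xi c) J (thetaR R)‖ :=
      Finset.sum_nonneg fun _ _ => norm_nonneg _
    calc (k : ℝ) ^ #T * (C0 * QQ * (1 / W.totient) *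
        ((2 * 4 ^ k) ^ #T * ∏ p ∈ T, (1 / (p.totient : ℝ))) *
        ∑ c : CF W T, ‖MM (xi c) J (thetaR R)‖) =
        C0 * QQ * (1 / W.totient) * (((k : ℝ) ^ #T *
        ((2 * 4 ^ k) ^ #T * ∏ p ∈ T, (1 / (p.totient : ℝ)))) *
        ∑ c : CF W T, ‖MM (xi c) J (thetaR R)‖) := by ring
      _ ≤ C0 * QQ * (1 / W.totient) * (((∏ p ∈ T, p : ℕ) : ℝ) ^ (-(3 / 4) : ℝ) *
        ∑ c : CF W T, ‖MM (xi c) J (thetaR R)‖) :=
          mul_le_mul_of_nonneg_left (mul_le_mul_of_nonneg_right h8 h9)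
            (mul_nonneg (mul_nonneg hC00 hQQ0) (one_div_nonneg.mpr (Nat.cast_nonneg _)))
  · rw [if_neg hne, if_neg hne]
    simp

lemma PsiV_none (W : ℕ) (h : Fin k → ℕ) (v : ℕ) (j : Fin k) (J : ℕ) :
    PsiV W h v j J (fun _ : QT V R => none) = ((psi0 W (v + h j) R J : ℝ) : ℂ) := by
  unfold PsiV psi0
  rw [Complex.ofReal_tsum]
  refine tsum_congr fun n => ?_
  have h1 : Tn (fun _ : QT V R => (none : Option (Fin k))) = ∅ := Tn_empty_iff.mpr rfl
  unfold PhiV
  have h2 : ∏ p : Tn (fun _ : QT V R => (none : Option (Fin k))),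
      loc h j (fun _ : QT V R => (none : Option (Fin k))) n p = 1 := by
    rw [Finset.prod_coe_sort (Tn (fun _ : QT V R => (none : Option (Fin k))))
      (fun p => loc h j (fun _ : QT V R => (none : Option (Fin k))) n p), h1, Finset.prod_empty]
  rw [h2, mul_one]
  split_ifs
  · push_cast; ring
  · push_cast; ring

/-- Lower bound for the second sieve sum. -/
theorem S2V_ge {W : ℕ} [NeZero W] {h : Fin k → ℕ} (hd : Distinct V R h)
    (hg : ∀ q : QT V R, 1 ≤ gk k q) (v : ℕ) {j : Fin k} (hv : Nat.Coprime (v + h j) W)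
    (hj : h j ≤ R) {y : Finset (QT V R × Fin k) → ℝ} (hy0 : ∀ U, 0 ≤ y U)
    (hya : ∀ U V, U ⊆ V → y V ≤ y U) (hys : ∀ U, R < nn U → y U = 0)
    (hbig : ∀ p ∈ PR V R, (k : ℝ) * (2 * 4 ^ k) * (1 / p.totient) ≤ (p : ℝ) ^ (-(3 / 4) : ℝ))
    (hsum : (k : ℝ) ^ 2 * ∑ q : QT V R, 1 / (gk k q) ^ 2 ≤ 1 / 32) {J : ℕ}
    (hpsi : 3 / 4 / (W.totient : ℝ) ≤ psi0 W (v + h j) R J) (herr : ErrV W V R J ≤ 1 / 16) :
    QI (gk k) (univ.erase j) y / (4 * W.totient) ≤ S2V W h v (AA (gk k) y) j J := by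
  have hk : 0 < k := Fin.pos j
  have hφ : (0 : ℝ) < W.totient := by
    have := Nat.totient_pos.mpr (NeZero.pos W)
    exact_mod_cast this
  have hcard : (#(univ.erase j : Finset (Fin k)) : ℝ) ≤ k := by
    have : #(univ.erase j : Finset (Fin k)) ≤ k := by
      refine (Finset.card_erase_le).trans ?_
      rw [Finset.card_univ, Fintype.card_fin]
    exact_mod_cast this
  have hs0 : 0 ≤ ∑ q : QT V R, 1 / (gk k q) ^ 2 := Finset.sum_nonneg fun q _ => one_div_nonneg.mpr (sq_nonneg _)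
  have hcs : (#(univ.erase j : Finset (Fin k)) : ℝ) ^ 2 * ∑ q : QT V R, 1 / (gk k q) ^ 2 ≤ 1 / 32 := by
    refine le_trans ?_ hsum
    refine mul_le_mul_of_nonneg_right ?_ hs0
    exact pow_le_pow_left₀ (Nat.cast_nonneg _) hcard 2
  have h1 := S2V_error hd hg v hv hj hy0 hya hys hbig J
  rw [PsiV_none, ← Complex.ofReal_mul, ← Complex.ofReal_sub, Complex.norm_real,
    Real.norm_eq_abs] at h1
  have h2 := (abs_le.mp h1).1
  have h3 := lower (QT V R) (Fin k) (gk k) hg (univ.erase j) y hy0 hya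
  set E := QI (gk k) (univ.erase j) y with hE
  have hE0 : 0 ≤ E := by
    rw [hE]
    unfold QI
    refine Finset.sum_nonneg fun U _ => div_nonneg (sq_nonneg _) ?_
    unfold gU
    exact Finset.prod_nonneg fun τ _ => (zero_le_one.trans (hg τ.1))
  have h4 : (1 / 2 : ℝ) * E ≤
      BB (gk k) (univ.erase j) (fun Y => (AA (gk k) y Y) ^ 2) (fun _ => none) := by
    refine le_trans ?_ h3
    refine mul_le_mul_of_nonneg_right ?_ hE0
    linarith
  have h5 : Real.exp ((#(univ.erase j : Finset (Fin k)) : ℝ) ^ 2 *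
      ∑ q : QT V R, 1 / (gk k q) ^ 2) ≤ 2 := by
    refine (Real.exp_le_exp.mpr hcs).trans ?_
    have := Real.exp_one_lt_d9
    have h6 : Real.exp (1 / 32 : ℝ) ≤ Real.exp (1 / 2) := Real.exp_le_exp.mpr (by norm_num)
    have h7 : Real.exp (1 / 2 : ℝ) ^ 2 = Real.exp 1 := by
      rw [← Real.exp_nat_mul]; norm_num
    nlinarith [Real.exp_pos (1 / 2 : ℝ)]
  have hEr : 0 ≤ ErrV W V R J := by
    unfold ErrV
    refine Finset.sum_nonneg fun x _ => ?_
    split_ifs
    · exact mul_nonneg (Real.rpow_nonneg (Nat.cast_nonneg _) _) (Finset.sum_nonneg fun _ _ => norm_nonneg _)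
    · exact le_rfl
  have h8 : Real.exp ((#(univ.erase j : Finset (Fin k)) : ℝ) ^ 2 *
      ∑ q : QT V R, 1 / (gk k q) ^ 2) * E * (1 / W.totient) * ErrV W V R J ≤
      2 * E * (1 / W.totient) * (1 / 16) := by
    have h9 : (0 : ℝ) ≤ 1 / W.totient := one_div_nonneg.mpr (Nat.cast_nonneg _)
    exact mul_le_mul (mul_le_mul_of_nonneg_right (mul_le_mul_of_nonneg_right h5 hE0) h9) herr hEr
      (mul_nonneg (mul_nonneg zero_le_two hE0) h9)
  have h10 : (1 / 2 : ℝ) * E * (3 / 4 / (W.totient : ℝ)) ≤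
      BB (gk k) (univ.erase j) (fun Y => (AA (gk k) y Y) ^ 2) (fun _ => none) *
        psi0 W (v + h j) R J := by
    exact mul_le_mul h4 hpsi (div_nonneg (by norm_num) (Nat.cast_nonneg _))
      (le_trans (mul_nonneg (by norm_num) hE0) h4)
  have h11 : (1 / 2 : ℝ) * E * (3 / 4 / (W.totient : ℝ)) -
      2 * E * (1 / W.totient) * (1 / 16) = E / (4 * W.totient) := by
    field_simp
    ring
  linarith

end

end Pool.Agent.Helper11.BE
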