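import Mathlib
import Pool.Agent.Helper11.BE.Defs
import Pool.Agent.Helper11.BE.S2V

/-!
Extension of the weights by one form.
-/

open Finset Filter Topology

namespace Pool.Agent.Helper11.BE

open Pool.Agent.Helper11.MT Pool.Agent.Helper99.MT2

section

variable {V R K : ℕ}

/-- The first `K` columns. -/
def emb : QT V R × Fin K ↪ QT V R × Fin (K + 1) :=
  ⟨fun τ => (τ.1, τ.2.castSucc), by
    rintro ⟨a, b⟩ ⟨c, d⟩ h
    simp only [Prod.mk.injEq] at h
    rw [h.1, Fin.castSucc_injective _ h.2]⟩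

lemma emb_apply (τ : QT V R × Fin K) : emb τ = (τ.1, τ.2.castSucc) := rfl

/-- Restriction to the first `K` columns. -/
def res (U : Finset (QT V R × Fin (K + 1))) : Finset (QT V R × Fin K) :=
  univ.filter (fun τ => emb τ ∈ U)

lemma mem_res {U : Finset (QT V R × Fin (K + 1))} {τ : QT V R × Fin K} :
    τ ∈ res U ↔ emb τ ∈ U := by
  unfold res
  rw [Finset.mem_filter]
  exact ⟨fun h => h.2, fun h => ⟨Finset.mem_univ _, h⟩⟩

lemma res_map (U : Finset (QT V R × Fin K)) : res (U.map emb) = U := by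
  ext τ
  rw [mem_res, Finset.mem_map' emb]

lemma map_res_eq_iff {U : Finset (QT V R × Fin (K + 1))} :
    (res U).map emb = U ↔ ∀ τ ∈ U, τ.2 ≠ Fin.last K := by
  constructor
  · intro h τ hτ
    rw [← h, Finset.mem_map] at hτ
    obtain ⟨σ, -, rfl⟩ := hτ
    rw [emb_apply]
    exact (Fin.castSucc_lt_last σ.2).ne
  · intro h
    ext τ
    rw [Finset.mem_map]
    constructor
    · rintro ⟨σ, hσ, rfl⟩
      exact mem_res.mp hσ
    · intro hτ
      have h1 := h τ hτ
      refine ⟨(τ.1, τ.2.castPred h1), ?_, ?_⟩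
      · rw [mem_res, emb_apply]
        simpa using hτ
      · rw [emb_apply]
        simp

/-- Extension by zero. -/
noncomputable def ext (y : Finset (QT V R × Fin K) → ℝ) (U : Finset (QT V R × Fin (K + 1))) : ℝ :=
  if (res U).map emb = U then y (res U) else 0

lemma ext_map (y : Finset (QT V R × Fin K) → ℝ) (U : Finset (QT V R × Fin K)) :
    ext y (U.map emb) = y U := by
  unfold ext
  rw [res_map, if_pos rfl]

lemma ext_of_ne {y : Finset (QT V R × Fin K) → ℝ} {U : Finset (QT V R × Fin (K + 1))}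
    (hU : (res U).map emb ≠ U) : ext y U = 0 := by
  unfold ext
  rw [if_neg hU]

lemma ext_nonneg {y : Finset (QT V R × Fin K) → ℝ} (hy : ∀ U, 0 ≤ y U)
    (U : Finset (QT V R × Fin (K + 1))) : 0 ≤ ext y U := by
  unfold ext
  split_ifs
  · exact hy _
  · exact le_rfl

lemma ext_antitone {y : Finset (QT V R × Fin K) → ℝ} (hy : ∀ U, 0 ≤ y U)
    (hya : ∀ U U', U ⊆ U' → y U' ≤ y U) (U U' : Finset (QT V R × Fin (K + 1))) (h : U ⊆ U') :
    ext y U' ≤ ext y U := by
  by_cases h1 : (res U').map emb = U'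
  · have h2 : (res U).map emb = U := by
      rw [map_res_eq_iff] at h1 ⊢
      exact fun τ hτ => h1 τ (h hτ)
    unfold ext
    rw [if_pos h1, if_pos h2]
    refine hya _ _ fun τ hτ => ?_
    rw [mem_res] at hτ ⊢
    exact h hτ
  · rw [ext_of_ne h1]
    exact ext_nonneg hy _

lemma nn_map (U : Finset (QT V R × Fin K)) : nn (U.map emb) = nn U := by
  unfold nn
  rw [Finset.prod_map]
  rfl

lemma ext_supp {y : Finset (QT V R × Fin K) → ℝ} (hys : ∀ U, R < nn U → y U = 0)
    (U : Finset (QT V R × Fin (K + 1))) (hU : R < nn U) : ext y U = 0 := by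
  by_cases h1 : (res U).map emb = U
  · unfold ext
    rw [if_pos h1]
    apply hys
    rw [← nn_map, h1]
    exact hU
  · exact ext_of_ne h1

lemma sum_emb (f : Finset (QT V R × Fin (K + 1)) → ℝ)
    (hf : ∀ U, (res U).map emb ≠ U → f U = 0) :
    ∑ U, f U = ∑ U0 : Finset (QT V R × Fin K), f (U0.map emb) := by
  symm
  refine Fintype.sum_of_injective (fun U0 : Finset (QT V R × Fin K) => U0.map emb)
    (Finset.map_injective emb) _ _ (fun U hU => ?_) (fun _ => rfl)
  apply hf
  intro h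
  exact hU ⟨res U, h⟩

lemma AA_ext (g : QT V R → ℝ) (y : Finset (QT V R × Fin K) → ℝ)
    (Y : Finset (QT V R × Fin (K + 1))) : AA g (ext y) Y = AA g y (res Y) := by
  unfold AA
  rw [sum_emb]
  · refine Finset.sum_congr rfl fun U _ => ?_
    rw [ext_map]
    congr 1
    unfold eU
    rw [Finset.prod_map]
    refine Finset.prod_congr rfl fun τ _ => ?_
    by_cases h : emb τ ∈ Y
    · rw [if_pos h, if_pos (mem_res.mpr h)]
    · rw [if_neg h, if_neg (fun h2 => h (mem_res.mp h2))]
      rfl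
  · intro U hU
    rw [ext_of_ne hU, zero_mul]

/-- One more shift. -/
def hx (h : Fin K → ℕ) (a : ℕ) : Fin (K + 1) → ℕ := Fin.snoc h a

lemma hx_castSucc (h : Fin K → ℕ) (a : ℕ) (i : Fin K) : hx h a i.castSucc = h i := by
  unfold hx
  rw [Fin.snoc_castSucc (α := fun _ => ℕ)]

lemma hx_last (h : Fin K → ℕ) (a : ℕ) : hx h a (Fin.last K) = a := by
  unfold hx
  rw [Fin.snoc_last (α := fun _ => ℕ)]

lemma res_Ymap (h : Fin K → ℕ) (a m : ℕ) :
    res (Ymap (W := V) (R := R) (hx h a) m) = Ymap h m := by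
  ext τ
  rw [mem_res, mem_Ymap, mem_Ymap, emb_apply]
  simp only
  rw [hx_castSucc]

lemma AA_ext_Ymap (h : Fin K → ℕ) (a m : ℕ) (y : Finset (QT V R × Fin K) → ℝ) :
    AA (gk (K + 1)) (ext y) (Ymap (hx h a) m) = G0 h y m := by
  unfold G0
  rw [AA_ext, res_Ymap]

lemma gU_map (κ : ℕ) (U : Finset (QT V R × Fin K)) : gU (gk κ) (U.map emb) = gg κ U := by
  unfold gU gg
  rw [Finset.prod_map]
  rfl

lemma sum_powerset_ite {α : Type} [Fintype α] [DecidableEq α] (S : Finset α)
    (f : Finset α → ℝ) : ∑ V ∈ S.powerset, f V = ∑ V : Finset α, if V ⊆ S then f V else 0 := by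
  rw [← Finset.sum_filter]
  refine Finset.sum_congr ?_ fun _ _ => rfl
  ext V
  simp

lemma ext_union_of_ne {y : Finset (QT V R × Fin K) → ℝ} {U U' : Finset (QT V R × Fin (K + 1))}
    (hU : (res U).map emb ≠ U) : ext y (U ∪ U') = 0 := by
  apply ext_of_ne
  intro h
  apply hU
  rw [map_res_eq_iff] at h ⊢
  exact fun τ hτ => h τ (Finset.mem_union_left _ hτ)

lemma ext_union_of_ne' {y : Finset (QT V R × Fin K) → ℝ} {U U' : Finset (QT V R × Fin (K + 1))}
    (hU : (res U').map emb ≠ U') : ext y (U ∪ U') = 0 := by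
  rw [Finset.union_comm]
  exact ext_union_of_ne hU

lemma QI_erase_ext (κ : ℕ) (y : Finset (QT V R × Fin K) → ℝ) (j : Fin K) :
    QI (gk κ) (univ.erase j.castSucc) (ext y) = EEjg κ y j := by
  classical
  -- the inner sum
  have hin : ∀ U0 : Finset (QT V R × Fin K),
      yI (gk κ) (univ.erase j.castSucc) (ext y) (U0.map emb) = yjg κ y j U0 := by
    intro U0
    unfold yI yjg
    rw [sum_powerset_ite, sum_powerset_ite, sum_emb]
    · refine Finset.sum_congr rfl fun V0 _ => ?_
      rw [gU_map, ← Finset.map_union, ext_map]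
      have h1 : V0.map emb ⊆ univ.filter (fun τ : QT V R × Fin (K + 1) =>
          τ.2 ∉ (univ.erase j.castSucc : Finset (Fin (K + 1)))) ↔
          V0 ⊆ univ.filter (fun τ : QT V R × Fin K => τ.2 = j) := by
        constructor
        · intro h τ hτ
          have h2 := h (Finset.mem_map_of_mem emb hτ)
          rw [Finset.mem_filter, emb_apply] at h2
          rw [Finset.mem_filter]
          refine ⟨Finset.mem_univ _, ?_⟩
          have h3 := h2.2
          simp only [Finset.mem_erase, Finset.mem_univ, and_true, not_not] at h3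
          exact Fin.castSucc_injective _ h3
        · intro h τ hτ
          rw [Finset.mem_map] at hτ
          obtain ⟨σ, hσ, rfl⟩ := hτ
          have h2 := h hσ
          rw [Finset.mem_filter] at h2
          rw [Finset.mem_filter, emb_apply]
          refine ⟨Finset.mem_univ _, ?_⟩
          simp only [Finset.mem_erase, Finset.mem_univ, and_true, not_not]
          rw [h2.2]
      by_cases h2 : V0 ⊆ univ.filter (fun τ : QT V R × Fin K => τ.2 = j)
      · rw [if_pos h2, if_pos (h1.mpr h2)]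
      · rw [if_neg h2, if_neg (fun h3 => h2 (h1.mp h3))]
    · intro U hU
      rw [ext_union_of_ne' hU, zero_div, ite_self]
  unfold QI EEjg
  rw [sum_powerset_ite, sum_powerset_ite, sum_emb]
  · refine Finset.sum_congr rfl fun U0 _ => ?_
    rw [gU_map, hin]
    have h1 : U0.map emb ⊆ EI (QT V R) (univ.erase j.castSucc : Finset (Fin (K + 1))) ↔
        U0 ⊆ univ.filter (fun τ : QT V R × Fin K => τ.2 ≠ j) := by
      unfold EI
      constructor
      · intro h τ hτ
        have h2 := h (Finset.mem_map_of_mem emb hτ)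
        rw [Finset.mem_filter, emb_apply] at h2
        rw [Finset.mem_filter]
        refine ⟨Finset.mem_univ _, ?_⟩
        have h3 := h2.2
        simp only [Finset.mem_erase, Finset.mem_univ, and_true] at h3
        exact fun h4 => h3 (by rw [h4])
      · intro h τ hτ
        rw [Finset.mem_map] at hτ
        obtain ⟨σ, hσ, rfl⟩ := hτ
        have h2 := h hσ
        rw [Finset.mem_filter] at h2
        rw [Finset.mem_filter, emb_apply]
        refine ⟨Finset.mem_univ _, ?_⟩
        simp only [Finset.mem_erase, Finset.mem_univ, and_true]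
        exact fun h4 => h2.2 (Fin.castSucc_injective _ h4)
    by_cases h2 : U0 ⊆ univ.filter (fun τ : QT V R × Fin K => τ.2 ≠ j)
    · rw [if_pos h2, if_pos (h1.mpr h2)]
    · rw [if_neg h2, if_neg (fun h3 => h2 (h1.mp h3))]
  · intro U hU
    have h0 : yI (gk κ) (univ.erase j.castSucc) (ext y) U = 0 := by
      unfold yI
      refine Finset.sum_eq_zero fun V _ => ?_
      rw [ext_union_of_ne hU, zero_div]
    rw [h0]
    simp

/-- The second sieve sum for the weights. -/
noncomputable def S2w (W : ℕ) (h : Fin K → ℕ) (v : ℕ) (y : Finset (QT V R × Fin K) → ℝ)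
    (j : Fin K) (J : ℕ) : ℝ :=
  ∑' m, if m ≡ v [MOD W] then thetaR R (m + h j) * w J (m + h j) * (G0 h y m) ^ 2 else 0

/-- Lower bound for the second sieve sum. -/
theorem S2w_ge {W : ℕ} [NeZero W] {h : Fin K → ℕ} {a : ℕ} (hd : Distinct V R (hx h a))
    (hg : ∀ q : QT V R, 1 ≤ gk (K + 1) q) (v : ℕ) {j : Fin K} (hv : Nat.Coprime (v + h j) W)
    (hj : h j ≤ R) {y : Finset (QT V R × Fin K) → ℝ} (hy0 : ∀ U, 0 ≤ y U)
    (hya : ∀ U V, U ⊆ V → y V ≤ y U) (hys : ∀ U, R < nn U → y U = 0)
    (hbig : ∀ p ∈ PR V R, ((K + 1 : ℕ) : ℝ) * (2 * 4 ^ (K + 1)) * (1 / p.totient) ≤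
      (p : ℝ) ^ (-(3 / 4) : ℝ))
    (hsum : ((K + 1 : ℕ) : ℝ) ^ 2 * ∑ q : QT V R, 1 / (gk (K + 1) q) ^ 2 ≤ 1 / 32) {J : ℕ}
    (hpsi : 3 / 4 / (W.totient : ℝ) ≤ psi0 W (v + h j) R J) (herr : ErrV W V R J ≤ 1 / 16) :
    EEjg (K + 1) y j / (4 * W.totient) ≤ S2w W h v y j J := by
  have h1 := S2V_ge (W := W) (h := hx h a) hd hg v (j := j.castSucc)
    (by rw [hx_castSucc]; exact hv) (by rw [hx_castSucc]; exact hj) (y := ext y)
    (ext_nonneg hy0) (ext_antitone hy0 hya) (ext_supp hys) hbig hsum (J := J)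
    (by rw [hx_castSucc]; exact hpsi) herr
  rw [QI_erase_ext] at h1
  refine h1.trans (le_of_eq ?_)
  unfold S2V S2w
  refine tsum_congr fun m => ?_
  rw [AA_ext_Ymap, hx_castSucc]

end

end Pool.Agent.Helper11.BE
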