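import Mathlib
import Pool.Agent.Helper11.BE.Ext
import Pool.Agent.Helper11.MT.Final2

/-!
Comparison of the sieve sums and the tails of the weights.
-/

open Finset Filter Topology

namespace Pool.Agent.Helper11.BE

open Pool.Agent.Helper11.MT Pool.Agent.Helper99.MT2

section

variable {V R K : ℕ}

/-- The weights. -/
noncomputable def om (W v J : ℕ) (h : Fin K → ℕ) (y : Finset (QT V R × Fin K) → ℝ) (m : ℕ) : ℝ :=
  if m ≡ v [MOD W] then w J m * (G0 h y m) ^ 2 else 0

lemma om_nonneg (W v J : ℕ) (h : Fin K → ℕ) (y : Finset (QT V R × Fin K) → ℝ) (m : ℕ) :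
    0 ≤ om W v J h y m := by
  unfold om
  split_ifs
  · exact mul_nonneg (w_nonneg _ _) (sq_nonneg _)
  · exact le_rfl

lemma om_le {W v J : ℕ} {h : Fin K → ℕ} {y : Finset (QT V R × Fin K) → ℝ} {L : ℝ}
    (hL : ∀ m, (G0 h y m) ^ 2 ≤ L) (m : ℕ) : om W v J h y m ≤ L * w J m := by
  have hL0 : 0 ≤ L := (sq_nonneg _).trans (hL 0)
  unfold om
  split_ifs
  · rw [mul_comm]
    exact mul_le_mul_of_nonneg_right (hL m) (w_nonneg _ _)
  · exact mul_nonneg hL0 (w_nonneg _ _)

lemma summable_om {W v J : ℕ} {h : Fin K → ℕ} {y : Finset (QT V R × Fin K) → ℝ} {L : ℝ}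
    (hL : ∀ m, (G0 h y m) ^ 2 ≤ L) : Summable (om W v J h y) :=
  Summable.of_nonneg_of_le (om_nonneg W v J h y) (om_le hL) ((summable_w J).mul_left L)

/-- The number of primes among the `m + h i`. -/
noncomputable def np (h : Fin K → ℕ) (m : ℕ) : ℝ :=
  (#(univ.filter (fun i => (m + h i).Prime)) : ℝ)

lemma np_nonneg (h : Fin K → ℕ) (m : ℕ) : 0 ≤ np h m := Nat.cast_nonneg _

lemma np_le (h : Fin K → ℕ) (m : ℕ) : np h m ≤ K := by
  unfold np
  have h1 : #(univ.filter (fun i => (m + h i).Prime)) ≤ K := by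
    refine (Finset.card_filter_le _ _).trans ?_
    rw [Finset.card_univ, Fintype.card_fin]
  exact_mod_cast h1

/-- Pointwise comparison. -/
lemma pointwise_le' {h : Fin K → ℕ} {H : ℕ} (hH : ∀ i, h i ≤ H) {J : ℕ} (hJ : 1 ≤ J)
    (hH8 : 8 * (H : ℝ) ≤ (3 / 2) ^ J) (m : ℕ) :
    ∑ j, thetaR R (m + h j) * w J (m + h j) ≤ 10 * J * (w J m * np h m) + K * (tl J m + tu J m) := by
  have hJ' : (1 : ℝ) ≤ J := by exact_mod_cast hJ
  have h0 : 0 ≤ 10 * (J : ℝ) * (w J m * np h m) := by
    have := w_nonneg J m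
    have := np_nonneg h m
    positivity
  by_cases h1 : (m : ℝ) < (3 / 2) ^ J
  · have h2 : ∑ j : Fin K, thetaR R (m + h j) * w J (m + h j) ≤ ∑ j : Fin K, tl J m :=
      Finset.sum_le_sum fun j _ => theta_low h1
    rw [Finset.sum_const, Finset.card_univ, Fintype.card_fin, nsmul_eq_mul] at h2
    have h4 := tu_nonneg J m
    have h5 : (0 : ℝ) ≤ K := Nat.cast_nonneg _
    nlinarith [mul_nonneg h5 h4]
  · push Not at h1
    by_cases h6 : (64 : ℝ) ^ J < m
    · have h2 : ∑ j : Fin K, thetaR R (m + h j) * w J (m + h j) ≤ ∑ j : Fin K, tu J m :=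
        Finset.sum_le_sum fun j _ => theta_high h6
      rw [Finset.sum_const, Finset.card_univ, Fintype.card_fin, nsmul_eq_mul] at h2
      have h4 := tl_nonneg J m
      have h5 : (0 : ℝ) ≤ K := Nat.cast_nonneg _
      nlinarith [mul_nonneg h5 h4]
    · push Not at h6
      have hm1 : 1 ≤ m := by
        have : (0 : ℝ) < m := lt_of_lt_of_le (by positivity) h1
        exact_mod_cast this
      have hHm : H ≤ m := by
        have : (H : ℝ) ≤ m := by
          have h0 : (0 : ℝ) ≤ H := Nat.cast_nonneg _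
          linarith
        exact_mod_cast this
      have h7 : ∀ j : Fin K, thetaR R (m + h j) * w J (m + h j) ≤
          if (m + h j).Prime then 5 * J * (2 * w J m) else 0 := by
        intro j
        split_ifs with hp
        · refine mul_le_mul ?_ (w_shift_le hJ h1 hH8 (hH j)) (w_nonneg _ _) (by positivity)
          unfold thetaR
          split_ifs
          · exact log_le_mid hJ h6 hm1 ((hH j).trans hHm)
          · positivity
        · unfold thetaR
          rw [if_neg (fun hc => hp hc.1), zero_mul]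
      refine (Finset.sum_le_sum fun j _ => h7 j).trans ?_
      rw [← Finset.sum_filter, Finset.sum_const, nsmul_eq_mul]
      have h11 : 0 ≤ (K : ℝ) * (tl J m + tu J m) :=
        mul_nonneg (Nat.cast_nonneg _) (add_nonneg (tl_nonneg _ _) (tu_nonneg _ _))
      unfold np
      linarith

/-- Comparison of the sums. -/
theorem sum_S2w_le {W : ℕ} {h : Fin K → ℕ} {v H : ℕ} (hH : ∀ i, h i ≤ H) {J : ℕ} (hJ : 1 ≤ J)
    (hH8 : 8 * (H : ℝ) ≤ (3 / 2) ^ J) {y : Finset (QT V R × Fin K) → ℝ} {L : ℝ}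
    (hL : ∀ m, (G0 h y m) ^ 2 ≤ L) :
    ∑ j, S2w W h v y j J ≤ 10 * J * ∑' m, om W v J h y m * np h m +
      K * L * ((J + 1) * (3 / 4) ^ J + (J + 1) * (2 * (1 / 2) ^ J) * K98) := by
  have hL0 : 0 ≤ L := (sq_nonneg _).trans (hL 0)
  have hs2 : ∀ j : Fin K, Summable fun m => if m ≡ v [MOD W] then
      thetaR R (m + h j) * w J (m + h j) * (G0 h y m) ^ 2 else 0 := by
    intro j
    have h1 : Summable fun m => thetaR R (m + h j) * w J (m + h j) * L :=
      ((summable_nat_add_iff (h j)).mpr (summable_thetaR_w R J)).mul_right L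
    refine Summable.of_nonneg_of_le (fun m => ?_) (fun m => ?_) h1
    · split_ifs
      · exact mul_nonneg (mul_nonneg (thetaR_nonneg _ _) (w_nonneg _ _)) (sq_nonneg _)
      · exact le_rfl
    · split_ifs
      · exact mul_le_mul_of_nonneg_left (hL _) (mul_nonneg (thetaR_nonneg _ _) (w_nonneg _ _))
      · exact mul_nonneg (mul_nonneg (thetaR_nonneg _ _) (w_nonneg _ _)) hL0
  have hs1 : Summable fun m => om W v J h y m * np h m := by
    refine Summable.of_nonneg_of_le (fun m => mul_nonneg (om_nonneg _ _ _ _ _ _) (np_nonneg _ _))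
      (fun m => ?_) ((summable_om (W := W) (v := v) (J := J) hL).mul_right (K : ℝ))
    exact mul_le_mul_of_nonneg_left (np_le h m) (om_nonneg _ _ _ _ _ _)
  have e1 : ∑ j, S2w W h v y j J = ∑' m, ∑ j : Fin K, (if m ≡ v [MOD W] then
      thetaR R (m + h j) * w J (m + h j) * (G0 h y m) ^ 2 else 0) := by
    unfold S2w
    rw [Summable.tsum_finsetSum (fun j _ => hs2 j)]
  have hR : Summable fun m => 10 * J * (om W v J h y m * np h m) + K * L * (tl J m + tu J m) :=
    (hs1.mul_left _).add (((summable_tl J).add (summable_tu J)).mul_left _)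
  have h2 : ∑' m, ∑ j : Fin K, (if m ≡ v [MOD W] then
      thetaR R (m + h j) * w J (m + h j) * (G0 h y m) ^ 2 else 0) ≤
      ∑' m, (10 * J * (om W v J h y m * np h m) + K * L * (tl J m + tu J m)) := by
    refine Summable.tsum_le_tsum (fun m => ?_) (summable_sum fun j _ => hs2 j) hR
    have h3 : 0 ≤ (K : ℝ) * (tl J m + tu J m) :=
      mul_nonneg (Nat.cast_nonneg _) (add_nonneg (tl_nonneg _ _) (tu_nonneg _ _))
    by_cases hmv : m ≡ v [MOD W]
    · unfold om
      simp only [if_pos hmv]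
      rw [← Finset.sum_mul]
      have h4 := pointwise_le' (R := R) hH hJ hH8 m
      calc (∑ j, thetaR R (m + h j) * w J (m + h j)) * (G0 h y m) ^ 2 ≤
          (10 * J * (w J m * np h m) + K * (tl J m + tu J m)) * (G0 h y m) ^ 2 :=
            mul_le_mul_of_nonneg_right h4 (sq_nonneg _)
        _ = 10 * J * (w J m * (G0 h y m) ^ 2 * np h m) +
            (K * (tl J m + tu J m)) * (G0 h y m) ^ 2 := by ring
        _ ≤ 10 * J * (w J m * (G0 h y m) ^ 2 * np h m) + (K * (tl J m + tu J m)) * L := by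
          gcongr
          exact hL _
        _ = _ := by ring
    · unfold om
      simp only [if_neg hmv, Finset.sum_const_zero, mul_zero, zero_mul, zero_add]
      have : (K : ℝ) * L * (tl J m + tu J m) = (K * (tl J m + tu J m)) * L := by ring
      rw [this]
      exact mul_nonneg h3 hL0
  rw [e1]
  refine h2.trans ?_
  rw [Summable.tsum_add (hs1.mul_left _) (((summable_tl J).add (summable_tu J)).mul_left _),
    tsum_mul_left, tsum_mul_left, Summable.tsum_add (summable_tl J) (summable_tu J), tsum_tu]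
  have h5 := tsum_tl_le J
  have h6 : (0 : ℝ) ≤ K * L := by positivity
  have h7 : (K : ℝ) * L * (∑' m, tl J m + (J + 1) * (2 * (1 / 2) ^ J) * K98) ≤
      K * L * ((J + 1) * (3 / 4) ^ J + (J + 1) * (2 * (1 / 2) ^ J) * K98) := by gcongr
  linarith

end

/-- Lower tail. -/
noncomputable def ta (J m : ℕ) : ℝ := if (m : ℝ) < Real.exp ((J : ℝ) / 2) then (1 / 2) ^ J else 0

/-- Upper tail. -/
noncomputable def tb (J m : ℕ) : ℝ :=
  2 ^ J * Real.exp (-(3 * (J : ℝ) / 4)) * (m : ℝ) ^ (-(9 / 8) : ℝ)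

lemma summable_ta (J : ℕ) : Summable (ta J) := by
  refine summable_of_hasFiniteSupport ?_
  refine Set.Finite.subset (Set.finite_Iio (⌈Real.exp ((J : ℝ) / 2)⌉₊)) fun m hm => ?_
  rw [Function.mem_support] at hm
  unfold ta at hm
  rw [Set.mem_Iio]
  by_contra hcon
  push Not at hcon
  apply hm
  rw [if_neg]
  push Not
  exact (Nat.ceil_le.mp hcon)

lemma tsum_ta_le (J : ℕ) : ∑' m, ta J m ≤ (Real.exp ((J : ℝ) / 2) + 1) * (1 / 2) ^ J := by
  have h1 : ∑' m, ta J m = ∑ m ∈ range ⌈Real.exp ((J : ℝ) / 2)⌉₊, ta J m := by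
    refine tsum_eq_sum fun m hm => ?_
    rw [Finset.mem_range, not_lt] at hm
    unfold ta
    rw [if_neg]
    push Not
    exact (Nat.ceil_le.mp hm)
  rw [h1]
  have h2 : ∀ m ∈ range ⌈Real.exp ((J : ℝ) / 2)⌉₊, ta J m ≤ (1 / 2) ^ J := by
    intro m _
    unfold ta
    split_ifs
    · exact le_rfl
    · positivity
  refine (Finset.sum_le_sum h2).trans ?_
  rw [Finset.sum_const, Finset.card_range, nsmul_eq_mul]
  have h3 := (Nat.ceil_lt_add_one (a := Real.exp ((J : ℝ) / 2)) (Real.exp_pos _).le).le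
  exact mul_le_mul_of_nonneg_right h3 (by positivity)

lemma summable_tb (J : ℕ) : Summable (tb J) := summable_98.mul_left _

lemma tsum_tb (J : ℕ) : ∑' m, tb J m = 2 ^ J * Real.exp (-(3 * (J : ℝ) / 4)) * K98 := by
  unfold tb K98
  rw [tsum_mul_left]

/-- The tails of a function dominated by `L * w J`. -/
lemma tail_le {J : ℕ} {f : ℕ → ℝ} {L : ℝ} (hL : 0 ≤ L) (hf0 : ∀ m, 0 ≤ f m)
    (hf : ∀ m, f m ≤ L * w J m) :
    ∑' m : ℕ, (if Real.exp ((J : ℝ) / 2) ≤ m ∧ (m : ℝ) ≤ Real.exp (2 * J) then 0 else f m) ≤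
      L * ((Real.exp ((J : ℝ) / 2) + 1) * (1 / 2) ^ J +
        2 ^ J * Real.exp (-(3 * (J : ℝ) / 4)) * K98) := by
  have hta : ∀ m, 0 ≤ ta J m := fun m => by unfold ta; split_ifs <;> positivity
  have htb : ∀ m, 0 ≤ tb J m := fun m => by unfold tb; positivity
  have hs : Summable fun m => L * (ta J m + tb J m) :=
    ((summable_ta J).add (summable_tb J)).mul_left L
  have hpt : ∀ m : ℕ, (if Real.exp ((J : ℝ) / 2) ≤ m ∧ (m : ℝ) ≤ Real.exp (2 * J) then 0 else f m) ≤
      L * (ta J m + tb J m) := by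
    intro m
    split_ifs with h1
    · exact mul_nonneg hL (add_nonneg (hta m) (htb m))
    · by_cases h2 : (m : ℝ) < Real.exp ((J : ℝ) / 2)
      · refine (hf m).trans (mul_le_mul_of_nonneg_left ?_ hL)
        have h3 : ta J m = (1 / 2) ^ J := by unfold ta; rw [if_pos h2]
        have h4 := w_le_two_pow J m
        have h5 : (1 : ℝ) / 2 ^ J = (1 / 2) ^ J := by rw [one_div_pow]
        have := htb m
        linarith
      · push Not at h1 h2
        have h3 := h1 h2
        have hm0 : (0 : ℝ) < m := lt_trans (Real.exp_pos _) h3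
        refine (hf m).trans (mul_le_mul_of_nonneg_left ?_ hL)
        have h4 : w J m ≤ 2 ^ J * (m : ℝ) ^ (-(3 / 2) : ℝ) := w_le' _ _
        have h5 : (m : ℝ) ^ (-(3 / 2) : ℝ) = (m : ℝ) ^ (-(3 / 8) : ℝ) * (m : ℝ) ^ (-(9 / 8) : ℝ) := by
          rw [← Real.rpow_add hm0]
          norm_num
        have h6 : (m : ℝ) ^ (-(3 / 8) : ℝ) ≤ Real.exp (-(3 * (J : ℝ) / 4)) := by
          calc (m : ℝ) ^ (-(3 / 8) : ℝ) ≤ (Real.exp (2 * J)) ^ (-(3 / 8) : ℝ) :=
                Real.rpow_le_rpow_of_nonpos (Real.exp_pos _) h3.le (by norm_num)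
            _ = _ := by
                rw [← Real.exp_mul]
                congr 1
                ring
        have h7 : w J m ≤ tb J m := by
          unfold tb
          refine h4.trans ?_
          rw [h5]
          calc 2 ^ J * ((m : ℝ) ^ (-(3 / 8) : ℝ) * (m : ℝ) ^ (-(9 / 8) : ℝ)) ≤
              2 ^ J * (Real.exp (-(3 * (J : ℝ) / 4)) * (m : ℝ) ^ (-(9 / 8) : ℝ)) := by gcongr
            _ = _ := by ring
        have := hta m
        linarith
  have h1 : ∑' m : ℕ, (if Real.exp ((J : ℝ) / 2) ≤ m ∧ (m : ℝ) ≤ Real.exp (2 * J) then 0 else f m) ≤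
      ∑' m, L * (ta J m + tb J m) := by
    refine Summable.tsum_le_tsum hpt ?_ hs
    refine Summable.of_nonneg_of_le (fun m => ?_) hpt hs
    split_ifs
    · exact le_rfl
    · exact hf0 m
  refine h1.trans ?_
  rw [tsum_mul_left, Summable.tsum_add (summable_ta J) (summable_tb J), tsum_tb]
  refine mul_le_mul_of_nonneg_left ?_ hL
  have := tsum_ta_le J
  linarith

end Pool.Agent.Helper11.BE
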