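import Mathlib
import Pool.Agent.Helper11.MT.Sieve1

/-!
The first sieve sum, for general residue classes and two moduli `W ∣ V`.
-/

open Finset

namespace Pool.Agent.Helper11.BE

open Pool.Agent.Helper11.MT

section

variable {V R k : ℕ}

/-- The pairs `(q, i)` with `m ≡ ρ q i` modulo `q`. -/
def Yr (ρ : (q : QT V R) → Fin k → ZMod (q : ℕ)) (m : ℕ) : Finset (QT V R × Fin k) :=
  univ.filter (fun τ => (m : ZMod (τ.1 : ℕ)) = ρ τ.1 τ.2)

lemma mem_Yr {ρ : (q : QT V R) → Fin k → ZMod (q : ℕ)} {m : ℕ} {τ : QT V R × Fin k} :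
    τ ∈ Yr ρ m ↔ (m : ZMod (τ.1 : ℕ)) = ρ τ.1 τ.2 := by
  unfold Yr
  rw [Finset.mem_filter]
  exact ⟨fun h => h.2, fun h => ⟨Finset.mem_univ _, h⟩⟩

lemma isPar_of_subset_Yr {ρ : (q : QT V R) → Fin k → ZMod (q : ℕ)}
    (hρ : ∀ q, Function.Injective (ρ q)) {m : ℕ} {C : Finset (QT V R × Fin k)}
    (hC : C ⊆ Yr ρ m) : IsPar C := by
  rintro ⟨q, i⟩ hτ ⟨q', i'⟩ hσ heq
  have h1 := mem_Yr.mp (hC hτ)
  have h2 := mem_Yr.mp (hC hσ)
  simp only at heq h1 h2
  subst heq
  rw [h1] at h2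
  rw [hρ q h2]

lemma coprime_nn' {W : ℕ} (hWV : W ∣ V) {C : Finset (QT V R × Fin k)} {q : QT V R}
    (hq : ∀ τ ∈ C, τ.1 ≠ q) : Nat.Coprime (W * nn C) q :=
  Nat.Coprime.coprime_dvd_left (Nat.mul_dvd_mul_right hWV _) (coprime_nn hq)

/-- The joint congruence conditions form one residue class. -/
lemma exists_class_gen {W : ℕ} (hWV : W ∣ V) (ρ : (q : QT V R) → Fin k → ZMod (q : ℕ)) (v : ℕ)
    (C : Finset (QT V R × Fin k)) (hC : IsPar C) :
    ∃ a, ∀ m, (m ≡ v [MOD W] ∧ C ⊆ Yr ρ m) ↔ m ≡ a [MOD (W * nn C)] := by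
  induction C using Finset.induction_on with
  | empty =>
    refine ⟨v, fun m => ?_⟩
    simp [nn]
  | insert τ C hτ ih =>
    obtain ⟨a0, ha0⟩ := ih (fun σ hσ ρ hρ => hC σ (Finset.mem_insert_of_mem hσ) ρ
      (Finset.mem_insert_of_mem hρ))
    have hcop : Nat.Coprime (W * nn C) τ.1 := by
      refine coprime_nn' hWV fun σ hσ heq => ?_
      have := hC σ (Finset.mem_insert_of_mem hσ) τ (Finset.mem_insert_self _ _) heq
      rw [this] at hσ
      exact hτ hσ
    have : NeZero (τ.1 : ℕ) := ⟨(qt_prime τ.1).ne_zero⟩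
    obtain ⟨a, ha1, ha2⟩ := Nat.chineseRemainder hcop a0 (ρ τ.1 τ.2).val
    refine ⟨a, fun m => ?_⟩
    have e1 : W * nn (insert τ C) = (W * nn C) * τ.1 := by
      unfold nn
      rw [Finset.prod_insert hτ]
      ring
    rw [e1, ← Nat.modEq_and_modEq_iff_modEq_mul hcop, Finset.insert_subset_iff, mem_Yr]
    have h2 : (m : ZMod (τ.1 : ℕ)) = ρ τ.1 τ.2 ↔ m ≡ a [MOD (τ.1 : ℕ)] := by
      have h3 : ((a : ℕ) : ZMod (τ.1 : ℕ)) = ρ τ.1 τ.2 := by
        rw [(ZMod.natCast_eq_natCast_iff _ _ _).mpr ha2, ZMod.natCast_zmod_val]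
      rw [← h3, ZMod.natCast_eq_natCast_iff]
    rw [h2]
    constructor
    · rintro ⟨h3, h4, h5⟩
      exact ⟨((ha0 m).mp ⟨h3, h5⟩).trans ha1.symm, h4⟩
    · rintro ⟨h3, h4⟩
      have := (ha0 m).mpr (h3.trans ha1)
      exact ⟨this.1, h4, this.2⟩

/-- One residue class condition, asymptotically. -/
lemma tsum_class_gen {W : ℕ} [NeZero W] (hWV : W ∣ V)
    {ρ : (q : QT V R) → Fin k → ZMod (q : ℕ)}
    (hρ : ∀ q, Function.Injective (ρ q)) (v : ℕ) (C : Finset (QT V R × Fin k)) (J : ℕ) :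
    |(∑' m, if m ≡ v [MOD W] ∧ C ⊆ Yr ρ m then w J m else 0) -
      (∑' m, w J m) / W * (if IsPar C then 1 / (nn C : ℝ) else 0)| ≤ 4 * ((2 / 3) ^ J * K32) := by
  split_ifs with hC
  · obtain ⟨a, ha⟩ := exists_class_gen hWV ρ v C hC
    have hpos : 0 < W * nn C := by
      refine Nat.mul_pos (NeZero.pos W) ?_
      unfold nn
      exact Finset.prod_pos fun τ _ => (qt_prime τ.1).pos
    have h1 := abs_tsum_w_modEq_sub J hpos a
    have e1 : (∑' m, if m ≡ v [MOD W] ∧ C ⊆ Yr ρ m then w J m else 0) =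
        ∑' m, if m ≡ a [MOD (W * nn C)] then w J m else 0 := by
      refine tsum_congr fun m => ?_
      by_cases h2 : m ≡ a [MOD (W * nn C)]
      · rw [if_pos h2, if_pos ((ha m).mpr h2)]
      · rw [if_neg h2, if_neg (fun h => h2 ((ha m).mp h))]
    rw [e1]
    have e2 : (∑' m, w J m) / W * (1 / (nn C : ℝ)) = (∑' m, w J m) / ((W * nn C : ℕ) : ℝ) := by
      push_cast
      rw [div_mul_div_comm, mul_one]
    rw [e2]
    exact h1
  · have e1 : (∑' m, if m ≡ v [MOD W] ∧ C ⊆ Yr ρ m then w J m else 0) = 0 := by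
      rw [tsum_congr (fun m => if_neg (fun h2 => hC (isPar_of_subset_Yr hρ h2.2)))]
      exact tsum_zero
    rw [e1, mul_zero, sub_zero, abs_zero]
    have := K32_nonneg
    positivity

/-- Asymptotic evaluation of the first sieve sum, general residue classes. -/
theorem S1_asymp_gen {W : ℕ} [NeZero W] (hWV : W ∣ V)
    {ρ : (q : QT V R) → Fin k → ZMod (q : ℕ)} (hρ : ∀ q, Function.Injective (ρ q))
    (hk : ∀ q : QT V R, 1 ≤ gk k q) (v : ℕ)
    {G : Finset (QT V R × Fin k) → ℝ} {lam : Finset (QT V R × Fin k) → ℝ}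
    (hG : ∀ Y, G Y = ∑ D ∈ Y.powerset, lam D) (J : ℕ) :
    |(∑' m, if m ≡ v [MOD W] then w J m * (G (Yr ρ m)) ^ 2 else 0) -
      (∑' m, w J m) / W * BB (gk k) univ (fun Y => (G Y) ^ 2) (fun _ => none)| ≤
      (∑ D, |lam D|) ^ 2 * (4 * ((2 / 3) ^ J * K32)) := by
  have e1 : (∑' m, if m ≡ v [MOD W] then w J m * (G (Yr ρ m)) ^ 2 else 0) =
      ∑ D, ∑ D', lam D * lam D' *
        ∑' m, if m ≡ v [MOD W] ∧ D ∪ D' ⊆ Yr ρ m then w J m else 0 := by
    have hs : ∀ D D' : Finset (QT V R × Fin k), Summable fun m => lam D * lam D' *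
        (if m ≡ v [MOD W] ∧ D ∪ D' ⊆ Yr ρ m then w J m else 0) := by
      intro D D'
      refine Summable.mul_left _ ?_
      refine Summable.of_nonneg_of_le (fun m => ?_) (fun m => ?_) (summable_w J)
      · split_ifs
        · exact w_nonneg _ _
        · exact le_rfl
      · split_ifs
        · exact le_rfl
        · exact w_nonneg _ _
    have h2 : ∀ m, (if m ≡ v [MOD W] then w J m * (G (Yr ρ m)) ^ 2 else 0) =
        ∑ D, ∑ D', lam D * lam D' *
        (if m ≡ v [MOD W] ∧ D ∪ D' ⊆ Yr ρ m then w J m else 0) := by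
      intro m
      by_cases hm : m ≡ v [MOD W]
      · rw [if_pos hm, sq_expand hG, Finset.mul_sum]
        refine Finset.sum_congr rfl fun D _ => ?_
        rw [Finset.mul_sum]
        refine Finset.sum_congr rfl fun D' _ => ?_
        by_cases h3 : D ∪ D' ⊆ Yr ρ m
        · rw [if_pos h3, if_pos ⟨hm, h3⟩]; ring
        · rw [if_neg h3, if_neg (fun h => h3 h.2)]; ring
      · rw [if_neg hm]
        symm
        refine Finset.sum_eq_zero fun D _ => Finset.sum_eq_zero fun D' _ => ?_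
        rw [if_neg (fun h => hm h.1), mul_zero]
    rw [tsum_congr h2, Summable.tsum_finsetSum (fun D _ => summable_sum fun D' _ => hs D D')]
    refine Finset.sum_congr rfl fun D _ => ?_
    rw [Summable.tsum_finsetSum (fun D' _ => hs D D')]
    refine Finset.sum_congr rfl fun D' _ => ?_
    rw [tsum_mul_left]
  have e2 : BB (gk k) univ (fun Y => (G Y) ^ 2) (fun _ : QT V R => (none : Option (Fin k))) =
      ∑ D, ∑ D', lam D * lam D' *
        (if IsPar (D ∪ D') then 1 / (nn (D ∪ D') : ℝ) else 0) := by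
    have h2 : ∀ D D' : Finset (QT V R × Fin k), (if IsPar (D ∪ D') then 1 / (nn (D ∪ D') : ℝ) else 0) =
        ∑ f : QT V R → Option (Fin k), (∏ q, kap (gk k) univ q none (f q)) *
          (if (D ∪ D') ⊆ gr f then (1 : ℝ) else 0) := by
      intro D D'
      rw [prob_subset (gk k) hk (D ∪ D')]
      split_ifs
      · rw [prod_gk]
      · rfl
    unfold BB
    simp_rw [h2, sq_expand hG, Finset.mul_sum]
    rw [Finset.sum_comm]
    refine Finset.sum_congr rfl fun D _ => ?_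
    rw [Finset.sum_comm]
    refine Finset.sum_congr rfl fun D' _ => Finset.sum_congr rfl fun f _ => ?_
    ring
  rw [e1, e2, Finset.mul_sum, ← Finset.sum_sub_distrib]
  have e3 : (∑ D, |lam D|) ^ 2 * (4 * ((2 / 3) ^ J * K32)) =
      ∑ D, ∑ D', |lam D| * |lam D'| * (4 * ((2 / 3) ^ J * K32)) := by
    rw [pow_two, Finset.sum_mul_sum, Finset.sum_mul]
    refine Finset.sum_congr rfl fun D _ => ?_
    rw [Finset.sum_mul]
  rw [e3]
  refine (Finset.abs_sum_le_sum_abs _ _).trans (Finset.sum_le_sum fun D _ => ?_)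
  rw [Finset.mul_sum, ← Finset.sum_sub_distrib]
  refine (Finset.abs_sum_le_sum_abs _ _).trans (Finset.sum_le_sum fun D' _ => ?_)
  have h5 := tsum_class_gen hWV hρ v (D ∪ D') J
  have e4 : lam D * lam D' * (∑' m, if m ≡ v [MOD W] ∧ D ∪ D' ⊆ Yr ρ m then w J m else 0) -
      (∑' m, w J m) / W * (lam D * lam D' *
        (if IsPar (D ∪ D') then 1 / (nn (D ∪ D') : ℝ) else 0)) =
      lam D * lam D' * ((∑' m, if m ≡ v [MOD W] ∧ D ∪ D' ⊆ Yr ρ m then w J m else 0) -
      (∑' m, w J m) / W * (if IsPar (D ∪ D') then 1 / (nn (D ∪ D') : ℝ) else 0)) := by ring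
  rw [e4, abs_mul, abs_mul]
  exact mul_le_mul_of_nonneg_left h5 (by positivity)

/-- The classes of the forms `m + h i`. -/
def rh (h : Fin k → ℕ) (q : QT V R) (i : Fin k) : ZMod (q : ℕ) := - (h i : ZMod (q : ℕ))

lemma Yr_rh (h : Fin k → ℕ) (m : ℕ) : Yr (rh (V := V) (R := R) h) m = Ymap h m := by
  ext τ
  rw [mem_Yr, mem_Ymap]
  unfold rh
  rw [← ZMod.natCast_eq_zero_iff]
  push_cast
  constructor
  · intro h1
    rw [h1, neg_add_cancel]
  · intro h1
    exact eq_neg_of_add_eq_zero_left h1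

lemma rh_injective {h : Fin k → ℕ} (hd : Distinct V R h) (q : QT V R) :
    Function.Injective (rh h q) := by
  intro i i' hii
  unfold rh at hii
  rw [neg_inj, ZMod.natCast_eq_natCast_iff] at hii
  by_contra hne
  exact hd q q.2 i i' hne hii

end

end Pool.Agent.Helper11.BE
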