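import Mathlib
import Pool.Agent.Helper11.BE.Cmp
import Pool.Agent.Helper99.MT2.Asymp

/-!
Parameters and the final inequality of the sieve module.
-/

open Finset Filter Topology

namespace Pool.Agent.Helper11.BE

open Pool.Agent.Helper11.MT Pool.Agent.Helper99.MT2

lemma RK_ge : ∀ᶠ J : ℕ in atTop, Real.exp ((J : ℝ) / 2000) ≤ RK J := by
  filter_upwards [eventually_ge_atTop 2000] with J hJ
  have hJ' : (2000 : ℝ) ≤ J := by exact_mod_cast hJ
  have h1 : Real.exp ((J : ℝ) / 1000) - 1 < RK J := Nat.sub_one_lt_floor _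
  have e1 : Real.exp ((J : ℝ) / 1000) = Real.exp ((J : ℝ) / 2000) * Real.exp ((J : ℝ) / 2000) := by
    rw [← Real.exp_add]; congr 1; ring
  have h3 : (2 : ℝ) ≤ Real.exp ((J : ℝ) / 2000) := by
    have := Real.add_one_le_exp ((J : ℝ) / 2000)
    linarith
  nlinarith

lemma log_le_small (A : ℝ) : ∀ᶠ J : ℕ in atTop, A * Real.log J ≤ (J : ℝ) / 2000 := by
  have h1 : Tendsto (fun x : ℝ => A * (Real.log x / x)) atTop (𝓝 0) := by
    have h := (Real.isLittleO_log_id_atTop).tendsto_div_nhds_zero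
    have h2 := h.const_mul A
    rw [mul_zero] at h2
    exact h2
  have h2 := (h1.comp tendsto_natCast_atTop_atTop).eventually_le_const
    (show (0 : ℝ) < 1 / 2000 by norm_num)
  filter_upwards [h2, eventually_ge_atTop 1] with J hJ hJ1
  have hJ0 : (0 : ℝ) < J := by exact_mod_cast hJ1
  simp only [Function.comp_apply] at hJ
  rw [← mul_div_assoc, div_le_iff₀ hJ0] at hJ
  linarith

lemma yJ_tendsto : Tendsto yJ atTop atTop := by
  have h1 : Tendsto (fun J : ℕ => ⌊Real.sqrt (J : ℝ)⌋₊) atTop atTop :=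
    tendsto_nat_floor_atTop.comp (Real.tendsto_sqrt_atTop.comp tendsto_natCast_atTop_atTop)
  have h2 : Tendsto (fun J : ℕ => Real.log (J : ℝ)) atTop atTop :=
    Real.tendsto_log_atTop.comp tendsto_natCast_atTop_atTop
  refine tendsto_atTop_mono' atTop ?_ h1
  filter_upwards [h2.eventually_ge_atTop 4, eventually_ge_atTop 1] with J hJ hJ1
  have hJ0 : (0 : ℝ) < J := by exact_mod_cast hJ1
  unfold yJ
  refine Nat.floor_le_floor ?_
  have h3 : Real.sqrt (Real.log J) ≤ Real.log J / 2 := by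
    rw [Real.sqrt_le_left (by linarith)]
    nlinarith
  have h4 : Real.sqrt (J : ℝ) = J * Real.exp (-(Real.log J / 2)) := by
    have h5 : Real.sqrt (J : ℝ) = Real.exp (Real.log J / 2) := by
      rw [Real.sqrt_eq_rpow, Real.rpow_def_of_pos hJ0]
      congr 1
      ring
    have h6 : (J : ℝ) = Real.exp (Real.log J / 2) * Real.exp (Real.log J / 2) := by
      rw [← Real.exp_add, add_halves, Real.exp_log hJ0]
    rw [h5]
    nth_rewrite 2 [h6]
    rw [mul_assoc, ← Real.exp_add, add_neg_cancel, Real.exp_zero, mul_one]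
  rw [h4]
  refine mul_le_mul_of_nonneg_left ?_ hJ0.le
  apply Real.exp_le_exp.mpr
  linarith

lemma pow_le_exp {a x : ℝ} (ha : 0 ≤ a) (hax : a ≤ Real.exp x) (J : ℕ) :
    a ^ J ≤ Real.exp (J * x) := by
  rw [Real.exp_nat_mul]
  exact pow_le_pow_left₀ ha hax J

lemma RK_pow_le (n J : ℕ) : (RK J : ℝ) ^ n ≤ Real.exp (J * ((n : ℝ) / 1000)) := by
  have h1 := pow_le_pow_left₀ (Nat.cast_nonneg _) (RK_le J) n
  refine h1.trans (le_of_eq ?_)
  rw [← Real.exp_nat_mul]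
  congr 1
  ring

lemma ev_small (C : ℝ) : ∀ᶠ J : ℕ in atTop, C * (((J : ℝ) + 1) * Real.exp (-(J : ℝ) / 50)) ≤ 1 := by
  filter_upwards [(tendsto_poly_exp |C|).eventually_le_const (show (0 : ℝ) < 1 by norm_num)]
    with J hJ
  refine le_trans ?_ hJ
  have h0 : (0 : ℝ) ≤ J := Nat.cast_nonneg J
  have h1 : ((J : ℝ) + 1) ≤ ((J : ℝ) + 1) ^ 6 := le_self_pow₀ (by linarith) (by norm_num)
  calc C * (((J : ℝ) + 1) * Real.exp (-(J : ℝ) / 50)) ≤
      |C| * (((J : ℝ) + 1) * Real.exp (-(J : ℝ) / 50)) :=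
        mul_le_mul_of_nonneg_right (le_abs_self C) (by positivity)
    _ ≤ _ := by gcongr

lemma small1 : ∀ᶠ J : ℕ in atTop, ∀ pe : ℕ,
    16 * (RK J : ℝ) ^ 20 * ((2 / 3) ^ J * K32) * Wf (yJ J) pe ≤ 1 / 8 := by
  filter_upwards [Wf_small, ev_small (128 * K32)] with J hW hs pe
  have h1 := RK_pow_le 20 J
  have h2 := pow_le_exp (a := 2 / 3) (x := -(1 / 3)) (by norm_num)
    (by have := Real.add_one_le_exp (-(1 / 3) : ℝ); linarith) J
  have h3 := hW pe
  have hK := K32_nonneg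
  have h0 : (0 : ℝ) ≤ J := Nat.cast_nonneg J
  have h4 : Real.exp (J * (((20 : ℕ) : ℝ) / 1000)) * Real.exp (J * -(1 / 3)) *
      Real.exp ((J : ℝ) / 500000) ≤ Real.exp (-(J : ℝ) / 50) := by
    rw [← Real.exp_add, ← Real.exp_add]
    apply Real.exp_le_exp.mpr
    push_cast
    linarith
  calc 16 * (RK J : ℝ) ^ 20 * ((2 / 3) ^ J * K32) * Wf (yJ J) pe ≤
      16 * Real.exp (J * (((20 : ℕ) : ℝ) / 1000)) * (Real.exp (J * -(1 / 3)) * K32) *
        Real.exp ((J : ℝ) / 500000) := by gcongr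
    _ = 16 * K32 * (Real.exp (J * (((20 : ℕ) : ℝ) / 1000)) * Real.exp (J * -(1 / 3)) *
      Real.exp ((J : ℝ) / 500000)) := by ring
    _ ≤ 16 * K32 * (((J : ℝ) + 1) * Real.exp (-(J : ℝ) / 50)) := by
      refine mul_le_mul_of_nonneg_left (h4.trans ?_) (by positivity)
      exact le_mul_of_one_le_left (Real.exp_pos _).le (by linarith)
    _ ≤ 1 / 8 := by linarith

lemma small2 (K : ℕ) : ∀ᶠ J : ℕ in atTop, ∀ pe : ℕ,
    K * (4 * (RK J : ℝ) ^ 10) *
      ((J + 1) * (3 / 4) ^ J + (J + 1) * (2 * (1 / 2) ^ J) * K98) * Wf (yJ J) pe ≤ 1 := by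
  filter_upwards [Wf_small, ev_small (4 * K * (1 + 2 * K98))] with J hW hs pe
  have h1 := RK_pow_le 10 J
  have h2 := pow_le_exp (a := 3 / 4) (x := -(1 / 4)) (by norm_num)
    (by have := Real.add_one_le_exp (-(1 / 4) : ℝ); linarith) J
  have h2' := pow_le_exp (a := 1 / 2) (x := -(1 / 2)) (by norm_num)
    (by have := Real.add_one_le_exp (-(1 / 2) : ℝ); linarith) J
  have h3 := hW pe
  have hK := K98_nonneg
  have h0 : (0 : ℝ) ≤ J := Nat.cast_nonneg J
  have h2'' : (1 / 2 : ℝ) ^ J ≤ Real.exp (J * -(1 / 4)) := by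
    refine h2'.trans (Real.exp_le_exp.mpr ?_)
    linarith
  have h4 : Real.exp (J * (((10 : ℕ) : ℝ) / 1000)) * Real.exp (J * -(1 / 4)) *
      Real.exp ((J : ℝ) / 500000) ≤ Real.exp (-(J : ℝ) / 50) := by
    rw [← Real.exp_add, ← Real.exp_add]
    apply Real.exp_le_exp.mpr
    push_cast
    linarith
  calc K * (4 * (RK J : ℝ) ^ 10) *
      ((J + 1) * (3 / 4) ^ J + (J + 1) * (2 * (1 / 2) ^ J) * K98) * Wf (yJ J) pe ≤
      K * (4 * Real.exp (J * (((10 : ℕ) : ℝ) / 1000))) *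
      ((J + 1) * Real.exp (J * -(1 / 4)) + (J + 1) * (2 * Real.exp (J * -(1 / 4))) * K98) *
        Real.exp ((J : ℝ) / 500000) := by gcongr
    _ = (4 * K * (1 + 2 * K98)) * (((J : ℝ) + 1) * (Real.exp (J * (((10 : ℕ) : ℝ) / 1000)) *
      Real.exp (J * -(1 / 4)) * Real.exp ((J : ℝ) / 500000))) := by ring
    _ ≤ (4 * K * (1 + 2 * K98)) * (((J : ℝ) + 1) * Real.exp (-(J : ℝ) / 50)) := by gcongr
    _ ≤ 1 := hs

lemma small3 : ∀ᶠ J : ℕ in atTop, ∀ pe : ℕ,
    4 * (RK J : ℝ) ^ 10 * (1 / 2) ^ J * Wf (yJ J) pe ≤ Real.exp (-(J : ℝ) / 10) / 8 := by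
  filter_upwards [Wf_small, ev_small 32] with J hW hs pe
  have h1 := RK_pow_le 10 J
  have h2' := pow_le_exp (a := 1 / 2) (x := -(1 / 2)) (by norm_num)
    (by have := Real.add_one_le_exp (-(1 / 2) : ℝ); linarith) J
  have h3 := hW pe
  have h0 : (0 : ℝ) ≤ J := Nat.cast_nonneg J
  have h4 : Real.exp (J * (((10 : ℕ) : ℝ) / 1000)) * Real.exp (J * -(1 / 2)) *
      Real.exp ((J : ℝ) / 500000) ≤ Real.exp (-(J : ℝ) / 50) * Real.exp (-(J : ℝ) / 10) := by
    rw [← Real.exp_add, ← Real.exp_add, ← Real.exp_add]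
    apply Real.exp_le_exp.mpr
    push_cast
    linarith
  have h5 : Real.exp (-(J : ℝ) / 50) ≤ 1 / 32 := by
    have : Real.exp (-(J : ℝ) / 50) ≤ ((J : ℝ) + 1) * Real.exp (-(J : ℝ) / 50) :=
      le_mul_of_one_le_left (Real.exp_pos _).le (by linarith)
    linarith
  calc 4 * (RK J : ℝ) ^ 10 * (1 / 2) ^ J * Wf (yJ J) pe ≤
      4 * Real.exp (J * (((10 : ℕ) : ℝ) / 1000)) * Real.exp (J * -(1 / 2)) *
        Real.exp ((J : ℝ) / 500000) := by gcongr
    _ = 4 * (Real.exp (J * (((10 : ℕ) : ℝ) / 1000)) * Real.exp (J * -(1 / 2)) *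
      Real.exp ((J : ℝ) / 500000)) := by ring
    _ ≤ 4 * (Real.exp (-(J : ℝ) / 50) * Real.exp (-(J : ℝ) / 10)) := by gcongr
    _ ≤ 4 * (1 / 32 * Real.exp (-(J : ℝ) / 10)) := by gcongr
    _ = _ := by ring

lemma small4 : ∀ᶠ J : ℕ in atTop, ∀ pe : ℕ,
    4 * (RK J : ℝ) ^ 10 * ((Real.exp ((J : ℝ) / 2) + 1) * (1 / 2) ^ J +
        2 ^ J * Real.exp (-(3 * (J : ℝ) / 4)) * K98) * Wf (yJ J) pe ≤
      Real.exp (-(J : ℝ) / 100) / 8 := by
  filter_upwards [Wf_small, ev_small (32 * (2 + K98))] with J hW hs pe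
  have hK := K98_nonneg
  have h1 := RK_pow_le 10 J
  have hlog1 := Real.log_two_gt_d9
  have hlog2 := Real.log_two_lt_d9
  have h0 : (0 : ℝ) ≤ J := Nat.cast_nonneg J
  have h2 : (1 / 2 : ℝ) ^ J ≤ Real.exp (J * -(69 / 100)) := by
    refine pow_le_exp (by norm_num) ?_ J
    have : (1 / 2 : ℝ) = Real.exp (-Real.log 2) := by
      rw [Real.exp_neg, Real.exp_log two_pos]; norm_num
    rw [this]
    apply Real.exp_le_exp.mpr
    linarith
  have h2' : (2 : ℝ) ^ J ≤ Real.exp (J * (6932 / 10000)) := by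
    refine pow_le_exp (by norm_num) ?_ J
    have : (2 : ℝ) = Real.exp (Real.log 2) := by rw [Real.exp_log two_pos]
    calc (2 : ℝ) = Real.exp (Real.log 2) := this
      _ ≤ _ := Real.exp_le_exp.mpr (by linarith)
  have h3 := hW pe
  have h5 : Real.exp ((J : ℝ) / 2) + 1 ≤ 2 * Real.exp ((J : ℝ) / 2) := by
    have := Real.one_le_exp (x := (J : ℝ) / 2) (by positivity)
    linarith
  have hA : Real.exp (J * (((10 : ℕ) : ℝ) / 1000)) * (Real.exp ((J : ℝ) / 2) *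
      Real.exp (J * -(69 / 100))) * Real.exp ((J : ℝ) / 500000) ≤
      Real.exp (-(J : ℝ) / 50) * Real.exp (-(J : ℝ) / 100) := by
    rw [← Real.exp_add, ← Real.exp_add, ← Real.exp_add, ← Real.exp_add]
    apply Real.exp_le_exp.mpr
    push_cast
    linarith
  have hB : Real.exp (J * (((10 : ℕ) : ℝ) / 1000)) * (Real.exp (J * (6932 / 10000)) *
      Real.exp (-(3 * (J : ℝ) / 4))) * Real.exp ((J : ℝ) / 500000) ≤
      Real.exp (-(J : ℝ) / 50) * Real.exp (-(J : ℝ) / 100) := by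
    rw [← Real.exp_add, ← Real.exp_add, ← Real.exp_add, ← Real.exp_add]
    apply Real.exp_le_exp.mpr
    push_cast
    linarith
  have h6 : (32 * (2 + K98)) * Real.exp (-(J : ℝ) / 50) ≤ 1 := by
    refine le_trans ?_ hs
    refine mul_le_mul_of_nonneg_left ?_ (by positivity)
    exact le_mul_of_one_le_left (Real.exp_pos _).le (by linarith)
  calc 4 * (RK J : ℝ) ^ 10 * ((Real.exp ((J : ℝ) / 2) + 1) * (1 / 2) ^ J +
        2 ^ J * Real.exp (-(3 * (J : ℝ) / 4)) * K98) * Wf (yJ J) pe ≤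
      4 * Real.exp (J * (((10 : ℕ) : ℝ) / 1000)) * ((2 * Real.exp ((J : ℝ) / 2)) *
        Real.exp (J * -(69 / 100)) + Real.exp (J * (6932 / 10000)) *
        Real.exp (-(3 * (J : ℝ) / 4)) * K98) * Real.exp ((J : ℝ) / 500000) := by gcongr
    _ = 8 * (Real.exp (J * (((10 : ℕ) : ℝ) / 1000)) * (Real.exp ((J : ℝ) / 2) *
      Real.exp (J * -(69 / 100))) * Real.exp ((J : ℝ) / 500000)) + 4 * K98 *
      (Real.exp (J * (((10 : ℕ) : ℝ) / 1000)) * (Real.exp (J * (6932 / 10000)) *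
      Real.exp (-(3 * (J : ℝ) / 4))) * Real.exp ((J : ℝ) / 500000)) := by ring
    _ ≤ 8 * (Real.exp (-(J : ℝ) / 50) * Real.exp (-(J : ℝ) / 100)) + 4 * K98 *
      (Real.exp (-(J : ℝ) / 50) * Real.exp (-(J : ℝ) / 100)) := by gcongr
    _ = (32 * (2 + K98)) * Real.exp (-(J : ℝ) / 50) * (Real.exp (-(J : ℝ) / 100) / 8) := by ring
    _ ≤ 1 * (Real.exp (-(J : ℝ) / 100) / 8) := by gcongr
    _ = _ := by ring

/-- The final inequality. -/
lemma final_arith2 {J r L : ℕ} {W φ φV E SE SS N S T1 T2 lR : ℝ} (hJ : 1 ≤ J) (hW : 0 < W)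
    (hφ : 0 < φ) (hE : 1 ≤ E) (hr : φ / (2 * W) ≤ φV) (hlR : (J : ℝ) / 2000 ≤ lR)
    (hopt : (φV * lR * (L / 640)) * E ≤ SE) (hlow : SE / (4 * φ) ≤ SS)
    (hupp : SS ≤ 10 * J * N + T1) (hS : S ≤ 4 * E / W + T2) (hT1 : T1 * W ≤ 1)
    (hT2 : T2 * W ≤ 1 / 8) (hL : 1000000000 * (r + 1) ≤ L) : r * S ≤ N := by
  have hJr : (1 : ℝ) ≤ J := by exact_mod_cast hJ
  have hJ0 : (0 : ℝ) < J := by linarith
  have hr0 : (0 : ℝ) ≤ r := Nat.cast_nonneg _
  have hL' : (1000000000 * ((r : ℝ) + 1)) ≤ L := by exact_mod_cast hL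
  have hL0 : (0 : ℝ) ≤ L := Nat.cast_nonneg _
  have hE0 : 0 < E := by linarith
  -- lower bound for SS
  have h1 : (φ / (2 * W) * (J / 2000) * (L / 640)) * E ≤ SE := by
    refine le_trans ?_ hopt
    have : φ / (2 * W) * (J / 2000) ≤ φV * lR :=
      mul_le_mul hr hlR (by positivity) ((by positivity : (0:ℝ) ≤ φ / (2 * W)).trans hr)
    gcongr
  have h2 : (J : ℝ) * L * E / (10240000 * W) ≤ SS := by
    refine le_trans ?_ hlow
    rw [le_div_iff₀ (by positivity)]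
    refine le_trans (le_of_eq ?_) h1
    field_simp
    ring
  have h3 : (J : ℝ) * L * E / (10240000 * W) ≤ 10 * J * N + T1 := h2.trans hupp
  have h4 : (J : ℝ) * L * E ≤ 10240000 * (10 * J * (N * W) + T1 * W) := by
    rw [div_le_iff₀ (by positivity)] at h3
    calc (J : ℝ) * L * E ≤ (10 * J * N + T1) * (10240000 * W) := h3
      _ = _ := by ring
  have h5 : (J : ℝ) * L * E ≤ 10240000 * (10 * J * (N * W) + J) := by
    refine h4.trans ?_
    have : T1 * W ≤ J := hT1.trans hJr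
    linarith
  have h6 : (L : ℝ) * E ≤ 102400000 * (N * W) + 10240000 := by
    have h7 : (J : ℝ) * (L * E) ≤ J * (102400000 * (N * W) + 10240000) := by
      calc (J : ℝ) * (L * E) = J * L * E := by ring
        _ ≤ _ := h5
        _ = _ := by ring
    exact le_of_mul_le_mul_left h7 hJ0
  have h7 : S * W ≤ 4 * E + 1 / 8 := by
    have h8 : S * W ≤ (4 * E / W + T2) * W := mul_le_mul_of_nonneg_right hS hW.le
    have h9 : (4 * E / W + T2) * W = 4 * E + T2 * W := by field_simp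
    linarith
  have h8 : r * S * W ≤ N * W := by
    have h9 : 1000000000 * ((r : ℝ) + 1) * E ≤ L * E := mul_le_mul_of_nonneg_right hL' hE0.le
    have h10 : (r : ℝ) * (S * W) ≤ r * (4 * E + 1 / 8) := mul_le_mul_of_nonneg_left h7 hr0
    have h11 : (r : ℝ) ≤ r * E := le_mul_of_one_le_right hr0 hE
    nlinarith
  exact le_of_mul_le_mul_right h8 hW

end Pool.Agent.Helper11.BE
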