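import Mathlib
import Pool.Agent.Helper11.BE.Ext
import Pool.Agent.Helper11.MT.Final3
import Pool.Agent.Helper11.MT.PrimePowers

/-!
Consequences of the equidistribution statement with growing modulus.
-/

open Finset Filter Topology

namespace Pool.Agent.Helper11.BE

open Pool.Agent.Helper11.MT Pool.Agent.Helper99.MT2
open ArithmeticFunction (vonMangoldt)

/-- Total mass of primes. -/
noncomputable def th1 (R J : ℕ) : ℝ := ∑' n, thetaR R n * w J n

lemma MM_one_eq {W R J : ℕ} [NeZero W] (hW : ∀ p : ℕ, p.Prime → p ∣ W → p ≤ R) :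
    MM (fun n => (1 : DirichletCharacter ℂ W) n) J (thetaR R) = ((th1 R J : ℝ) : ℂ) := by
  unfold MM th1
  rw [Complex.ofReal_tsum]
  refine tsum_congr fun n => ?_
  by_cases hn : n.Prime ∧ R < n
  · have h1 : IsUnit ((n : ℕ) : ZMod W) := by
      rw [ZMod.isUnit_iff_coprime]
      rw [Nat.Prime.coprime_iff_not_dvd hn.1]
      intro h
      have := hW n hn.1 h
      omega
    simp only
    rw [MulChar.one_apply h1]
    push_cast
    ring
  · have h1 : thetaR R n = 0 := by unfold thetaR; rw [if_neg hn]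
    rw [h1]
    simp

lemma psi0_expand {W R J : ℕ} [NeZero W] {a : ℕ} (ha : Nat.Coprime a W) :
    ((psi0 W a R J : ℝ) : ℂ) =
      ∑ χ : DirichletCharacter ℂ W, 1 / W.totient * χ ((a : ℕ) : ZMod W)⁻¹ *
        MM (fun n => χ n) J (thetaR R) := by
  have hau : IsUnit ((a : ℕ) : ZMod W) := by rwa [ZMod.isUnit_iff_coprime]
  unfold psi0
  rw [Complex.ofReal_tsum]
  have h2 : ∀ n : ℕ, ((thetaR R n * w J n *
      (if ((a : ℕ) : ZMod W) = (n : ZMod W) then 1 else 0) : ℝ) : ℂ) =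
      ∑ χ : DirichletCharacter ℂ W, 1 / W.totient * χ ((a : ℕ) : ZMod W)⁻¹ *
      (((thetaR R n : ℝ) : ℂ) * χ n * (w J n : ℂ)) := by
    intro n
    have h3 := indicator_eq hau n
    have h4 : (((if ((a : ℕ) : ZMod W) = (n : ZMod W) then 1 else 0) : ℝ) : ℂ) =
        if ((a : ℕ) : ZMod W) = (n : ZMod W) then (1 : ℂ) else 0 := by
      split_ifs <;> simp
    rw [Complex.ofReal_mul, h4, h3, Finset.mul_sum, Finset.mul_sum]
    refine Finset.sum_congr rfl fun χ _ => ?_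
    push_cast
    ring
  rw [tsum_congr h2, Summable.tsum_finsetSum]
  · refine Finset.sum_congr rfl fun χ _ => ?_
    rw [tsum_mul_left]
    rfl
  · intro χ _
    refine Summable.mul_left _ ?_
    exact MM_summable_theta R J (ξ := fun n => χ n)
      (fun n => DirichletCharacter.norm_le_one _ _)

/-- Lower bound for `psi0`. -/
lemma psi0_ge {W R J : ℕ} [NeZero W] {a : ℕ} (ha : Nat.Coprime a W)
    (hW : ∀ p : ℕ, p.Prime → p ∣ W → p ≤ R) :
    1 / W.totient * (th1 R J - ∑ χ ∈ univ.erase (1 : DirichletCharacter ℂ W),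
      ‖MM (fun n => χ n) J (thetaR R)‖) ≤ psi0 W a R J := by
  have hau : IsUnit ((a : ℕ) : ZMod W) := by rwa [ZMod.isUnit_iff_coprime]
  have h1 := psi0_expand (R := R) (J := J) ha
  rw [← Finset.add_sum_erase univ _ (Finset.mem_univ (1 : DirichletCharacter ℂ W)),
    MM_one_eq hW] at h1
  have h4 : IsUnit (((a : ℕ) : ZMod W)⁻¹) := by
    rw [isUnit_iff_exists]
    exact ⟨a, ZMod.inv_mul_of_unit _ hau, ZMod.mul_inv_of_unit _ hau⟩
  rw [MulChar.one_apply h4, mul_one] at h1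
  have h5 : ((psi0 W a R J - 1 / W.totient * th1 R J : ℝ) : ℂ) =
      ∑ χ ∈ univ.erase (1 : DirichletCharacter ℂ W), 1 / (W.totient : ℂ) *
        χ ((a : ℕ) : ZMod W)⁻¹ * MM (fun n => χ n) J (thetaR R) := by
    push_cast
    rw [h1]
    ring
  have h6 : |psi0 W a R J - 1 / W.totient * th1 R J| ≤
      1 / W.totient * ∑ χ ∈ univ.erase (1 : DirichletCharacter ℂ W),
        ‖MM (fun n => χ n) J (thetaR R)‖ := by
    rw [← Real.norm_eq_abs, ← Complex.norm_real, h5]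
    refine (norm_sum_le _ _).trans ?_
    rw [Finset.mul_sum]
    refine Finset.sum_le_sum fun χ _ => ?_
    rw [norm_mul, norm_mul]
    have h7 : ‖(1 / (W.totient : ℂ))‖ = 1 / (W.totient : ℝ) := by simp
    rw [h7]
    refine mul_le_mul_of_nonneg_right ?_ (norm_nonneg _)
    exact mul_le_of_le_one_right (by positivity) (DirichletCharacter.norm_le_one _ _)
  have h7 := (abs_le.mp h6).1
  rw [mul_sub]
  linarith

/-- The sum in `EQ2Statement`. -/
noncomputable def SEQ (W pe R J : ℕ) : ℝ := by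
  classical
  exact ∑ x ∈ (FX W R).filter (fun x => pe ∉ x.1 ∧ (x.1.Nonempty ∨ x.2.1 ≠ 1)),
    ((∏ p ∈ x.1, p : ℕ) : ℝ) ^ (-(3 / 4) : ℝ) * ‖MM (xs x) J (thetaR R)‖

lemma PR_mul {W pe R : ℕ} (hpe : pe.Prime) {p : ℕ} :
    p ∈ PR (W * pe) R ↔ p ∈ PR W R ∧ p ≠ pe := by
  rw [mem_PR, mem_PR]
  constructor
  · rintro ⟨h1, h2, h3⟩
    exact ⟨⟨h1, h2, fun h => h3 (Dvd.dvd.mul_right h pe)⟩, fun h => h3 (by rw [h]; exact dvd_mul_left _ _)⟩
  · rintro ⟨⟨h1, h2, h3⟩, h4⟩
    refine ⟨h1, h2, fun h => ?_⟩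
    rcases (Nat.Prime.dvd_mul h2).mp h with h5 | h5
    · exact h3 h5
    · exact h4 ((Nat.prime_dvd_prime_iff_eq h2 hpe).mp h5)

lemma TS_mul {W pe R : ℕ} (hpe : pe.Prime) {T : Finset ℕ} :
    T ∈ TS (W * pe) R ↔ T ∈ TS W R ∧ pe ∉ T := by
  rw [mem_TS, mem_TS]
  constructor
  · rintro ⟨h1, h2⟩
    refine ⟨⟨fun p hp => ((PR_mul hpe).mp (h1 hp)).1, h2⟩, fun h => ?_⟩
    exact ((PR_mul hpe).mp (h1 h)).2 rfl
  · rintro ⟨⟨h1, h2⟩, h3⟩
    refine ⟨fun p hp => (PR_mul hpe).mpr ⟨h1 hp, fun h => h3 (h ▸ hp)⟩, h2⟩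

lemma ErrV_le {W pe R J : ℕ} (hpe : pe.Prime) : ErrV W (W * pe) R J ≤ SEQ W pe R J := by
  classical
  have h1 : ErrV W (W * pe) R J =
      ∑ x ∈ ((TS (W * pe) R).sigma (fun _ => (univ : Finset (CF W _)))).filter
        (fun x => x.1.Nonempty),
        ((∏ p ∈ x.1, p : ℕ) : ℝ) ^ (-(3 / 4) : ℝ) * ‖MM (xs x) J (thetaR R)‖ := by
    unfold ErrV
    rw [Finset.sum_filter, Finset.sum_sigma]
    refine Finset.sum_congr rfl fun T _ => ?_
    simp only
    split_ifs
    · rw [Finset.mul_sum]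
      rfl
    · exact Finset.sum_const_zero.symm
  rw [h1]
  unfold SEQ
  refine Finset.sum_le_sum_of_subset_of_nonneg ?_ fun x _ _ => by positivity
  intro x hx
  rw [Finset.mem_filter, Finset.mem_sigma] at hx
  rw [Finset.mem_filter, mem_FX]
  have h2 := (TS_mul hpe).mp hx.1.1
  exact ⟨h2.1, h2.2, Or.inl hx.2⟩

lemma sum_chars_le {W pe R J : ℕ} [NeZero W] (hR : 1 ≤ R) :
    ∑ χ ∈ univ.erase (1 : DirichletCharacter ℂ W), ‖MM (fun n => χ n) J (thetaR R)‖ ≤
      SEQ W pe R J := by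
  classical
  set e : DirichletCharacter ℂ W → (Σ T : Finset ℕ, CF W T) :=
    fun χ => ⟨∅, (χ, fun p => absurd p.2 (Finset.notMem_empty _))⟩ with he
  have hinj : Function.Injective e := by
    intro χ χ' h
    rw [he] at h
    simp only [Sigma.mk.injEq, heq_eq_eq, Prod.mk.injEq, true_and] at h
    exact h.1
  have hterm : ∀ χ : DirichletCharacter ℂ W, ‖MM (fun n => χ n) J (thetaR R)‖ =
      ((∏ p ∈ (e χ).1, p : ℕ) : ℝ) ^ (-(3 / 4) : ℝ) * ‖MM (xs (e χ)) J (thetaR R)‖ := by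
    intro χ
    have h1 : (e χ).1 = ∅ := rfl
    have h2 : xs (e χ) = fun n : ℕ => χ n := by
      funext n
      unfold xs xi
      have : IsEmpty ((e χ).1 : Finset ℕ) := by
        rw [h1]
        infer_instance
      rw [Finset.univ_eq_empty, Finset.prod_empty, mul_one]
    rw [h2, h1, Finset.prod_empty]
    simp
  rw [Finset.sum_congr rfl (fun χ _ => hterm χ)]
  rw [← Finset.sum_image (f := fun x : (Σ T : Finset ℕ, CF W T) =>
    ((∏ p ∈ x.1, p : ℕ) : ℝ) ^ (-(3 / 4) : ℝ) * ‖MM (xs x) J (thetaR R)‖)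
    (fun a _ b _ h => hinj h)]
  unfold SEQ
  refine Finset.sum_le_sum_of_subset_of_nonneg ?_ fun x _ _ => by positivity
  intro x hx
  rw [Finset.mem_image] at hx
  obtain ⟨χ, hχ, rfl⟩ := hx
  rw [Finset.mem_filter, mem_FX]
  have h1 : (e χ).1 = ∅ := rfl
  refine ⟨?_, ?_, Or.inr ?_⟩
  · rw [h1, mem_TS]
    refine ⟨Finset.empty_subset _, ?_⟩
    rw [Finset.prod_empty]
    exact Nat.one_le_pow _ _ hR
  · rw [h1]
    exact Finset.notMem_empty _
  · exact (Finset.mem_erase.mp hχ).1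

lemma RK_le_RJ (J : ℕ) : RK J ≤ RJ J := by
  unfold RK RJ
  refine Nat.floor_le_floor ?_
  apply Real.exp_le_exp.mpr
  have : (0 : ℝ) ≤ J := Nat.cast_nonneg J
  linarith

lemma tendsto_th1 : Tendsto (fun J : ℕ => th1 (RK J) J) atTop (𝓝 1) := by
  have h1 : Tendsto (fun J : ℕ => MM (fun n => (1 : DirichletCharacter ℂ 1) n) J vonMangoldt) atTop
      (𝓝 1) := by
    have e1 : ∀ J : ℕ, MM (fun n => (1 : DirichletCharacter ℂ 1) n) J vonMangoldt =
        ∑' n : ℕ, ((1 : DirichletCharacter ℂ 1) n * (vonMangoldt n : ℂ)) * (w J n : ℂ) := by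
      intro J
      unfold MM
      refine tsum_congr fun n => ?_
      ring
    simp_rw [e1]
    exact tendsto_twist_one 1
  obtain ⟨C, hC0, hC⟩ := pp
  have h2 : Tendsto (fun J : ℕ => MM (fun n => (1 : DirichletCharacter ℂ 1) n) J vonMangoldt -
      MM (fun n => (1 : DirichletCharacter ℂ 1) n) J (thetaR (RK J))) atTop (𝓝 0) := by
    refine squeeze_zero_norm (fun J => (hC J (RK J) (fun n => (1 : DirichletCharacter ℂ 1) n)
      (fun n => DirichletCharacter.norm_le_one _ _)).trans ?_) (pp_tendsto C)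
    have h3 : ((RK J : ℕ) : ℝ) ≤ RJ J := by exact_mod_cast RK_le_RJ J
    gcongr
  have h3 := h1.sub h2
  simp only [sub_sub_cancel, sub_zero] at h3
  have h4 : ∀ J : ℕ, MM (fun n => (1 : DirichletCharacter ℂ 1) n) J (thetaR (RK J)) =
      ((th1 (RK J) J : ℝ) : ℂ) := by
    intro J
    refine MM_one_eq fun p hp h => ?_
    have := Nat.Prime.two_le hp
    have := Nat.le_of_dvd one_pos h
    omega
  simp_rw [h4] at h3
  have h5 := (Complex.continuous_re.tendsto _).comp h3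
  simpa [Function.comp_def] using h5

end Pool.Agent.Helper11.BE
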