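import Mathlib
import Pool.Agent.Helper11.BE.Params
import Pool.Agent.Helper11.BE.Psi
import Pool.Agent.Helper94.BE.S3Final

/-!
The sieve module: `EQ2Statement` implies `SieveStatement`.
-/

open Finset Filter Topology

namespace Pool.Agent.Helper11.BE

open Pool.Agent.Helper11.MT Pool.Agent.Helper99.MT2

lemma exists_large_K (r : ℕ) : ∃ K : ℕ, 2 ^ 16 ≤ K ∧ 1000000000 * (r + 1) ≤ Nat.log 2 K := by
  refine ⟨2 ^ (1000000000 * (r + 1) + 16), Nat.pow_le_pow_right (by norm_num) (by omega), ?_⟩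
  rw [Nat.log_pow (by norm_num)]
  omega

lemma dvd_Wf_mul {y pe p : ℕ} (hp : p.Prime) (hpy : p ≤ y) : p ∣ Wf y pe * pe := by
  by_cases h : p = pe
  · rw [h]; exact dvd_mul_left _ _
  · refine Dvd.dvd.mul_right ?_ _
    unfold Wf
    refine Finset.dvd_prod_of_mem (fun p => p) ?_
    rw [Finset.mem_filter, Finset.mem_range]
    exact ⟨by omega, hp, h⟩

lemma le_of_dvd_Wf {y pe p : ℕ} (hp : p.Prime) (h : p ∣ Wf y pe) : p ≤ y := by
  unfold Wf at h
  rw [Prime.dvd_finsetProd_iff hp.prime] at h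
  obtain ⟨q, hq, h⟩ := h
  rw [Finset.mem_filter, Finset.mem_range] at hq
  have := (Nat.prime_dvd_prime_iff_eq hp hq.2.1).mp h
  omega

lemma totient_ratio {W pe : ℕ} (hW : 0 < W) (hpe : pe.Prime) (hn : ¬ pe ∣ W) :
    (W.totient : ℝ) / (2 * W) ≤ ((W * pe).totient : ℝ) / ((W * pe : ℕ) : ℝ) := by
  have hcop : Nat.Coprime W pe := ((hpe.coprime_iff_not_dvd).mpr hn).symm
  rw [Nat.totient_mul hcop, Nat.totient_prime hpe]
  have hWr : (0 : ℝ) < W := by exact_mod_cast hW
  have hp2 : (2 : ℝ) ≤ pe := by exact_mod_cast hpe.two_le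
  have hφ : (0 : ℝ) ≤ W.totient := Nat.cast_nonneg _
  push_cast [Nat.cast_sub hpe.one_le]
  rw [div_le_div_iff₀ (by positivity) (by positivity)]
  nlinarith [mul_nonneg hφ hWr.le, mul_nonneg (mul_nonneg hφ hWr.le) (by linarith : (0 : ℝ) ≤ pe - 2)]

lemma aux_lt_sq {c H J : ℕ} (h : c * H + c + H + 10 ≤ J) : c < J ^ 2 := by
  have h1 : c < J := by
    have : 0 ≤ c * H := Nat.zero_le _
    omega
  calc c < J := h1
    _ = J ^ 1 := (pow_one J).symm
    _ ≤ J ^ 2 := Nat.pow_le_pow_right (by omega) (by norm_num)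

lemma aux_three {c H J : ℕ} (h : c * H + c + H + 10 ≤ J) : 3 * J + c * H ≤ J ^ 2 := by
  have h1 : c * H ≤ J := by omega
  have h2 : 4 * J ≤ J * J := Nat.mul_le_mul_right J (by omega)
  rw [pow_two]
  omega

lemma aux_contra {J q y : ℕ} (h1 : J ^ 2 < q) (h2 : q ≤ y) (h3 : y ≤ J) : False := by
  have h4 : J ≤ J ^ 2 := by
    rw [pow_two]
    exact Nat.le_mul_self J
  omega

theorem sieve_of (hopt : OptimStatement2) (hhz : HZStatement) (htot : TotStatement)
    (heq : EQ2Statement) : SieveStatement := by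
  intro r
  obtain ⟨K, hK16, hKL⟩ := exists_large_K r
  have hK1 : 1 ≤ K := le_trans (by norm_num) hK16
  refine ⟨K, hK1, fun h hinj c hc => ?_⟩
  obtain ⟨c0, hc0, hHZ⟩ := hhz
  obtain ⟨c1, hc1, hTot⟩ := htot
  refine ⟨40 / c0, by positivity, fun P0 => ?_⟩
  set H : ℕ := ∑ i, h i with hHdef
  have hH : ∀ i, h i ≤ H :=
    fun i => Finset.single_le_sum (fun _ _ => Nat.zero_le _) (Finset.mem_univ i)
  set a : ℕ := H + 1 with ha
  set D0 : ℕ := 256 * (K + 1) ^ 2 + (4 * (K + 1) * 4 ^ (K + 1)) ^ 4 + a + 4 * K with hD0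
  set A : ℝ := 16 * K * (Nat.log 2 K + 4) / c1 with hA
  have evD := yJ_tendsto.eventually_ge_atTop D0
  have evΩ1 : ∀ᶠ J : ℕ in atTop, ∑' n, w J n ≤ 2 :=
    (tendsto_Omega.eventually (eventually_lt_nhds (by norm_num : (1 : ℝ) < 2))).mono fun J hJ => hJ.le
  have evΩ2 : ∀ᶠ J : ℕ in atTop, 1 / 2 ≤ ∑' n, w J n :=
    (tendsto_Omega.eventually (eventually_gt_nhds (by norm_num : (1 / 2 : ℝ) < 1))).mono
      fun J hJ => hJ.le
  have evth : ∀ᶠ J : ℕ in atTop, 15 / 16 ≤ th1 (RK J) J :=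
    (tendsto_th1.eventually (eventually_gt_nhds (by norm_num : (15 / 16 : ℝ) < 1))).mono
      fun J hJ => hJ.le
  have evH : ∀ᶠ J : ℕ in atTop, 8 * (H : ℝ) ≤ (3 / 2 : ℝ) ^ J :=
    (tendsto_pow_atTop_atTop_of_one_lt (by norm_num : (1 : ℝ) < 3 / 2)).eventually
      (eventually_ge_atTop _)
  have evRJ : ∀ᶠ J : ℕ in atTop, (J : ℝ) ≤ Real.exp ((J : ℝ) / 2000) := by
    have h1 := log_le_small 1
    filter_upwards [h1, eventually_ge_atTop 1] with J h1 h2
    have hJ0 : (0 : ℝ) < J := by exact_mod_cast h2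
    rw [one_mul] at h1
    calc (J : ℝ) = Real.exp (Real.log J) := (Real.exp_log hJ0).symm
      _ ≤ _ := Real.exp_le_exp.mpr h1
  have evyJ : ∀ᶠ J : ℕ in atTop, (yJ J : ℝ) ≤ 1 * J := yJ_small one_pos
  filter_upwards [heq (1 / 16) (by norm_num) P0, evD, evΩ1, evΩ2, evth, evH, evRJ, evyJ, RK_ge,
    log_le_small A, hHZ (K + 1) (by omega), hTot, small1, small2 K, small3, small4,
    eventually_ge_atTop (c * H + c + H + 10)] with J h1 hD hΩ1 hΩ2 hth hHJ hRJ hyJ hRge hlog
      hHZJ hTotJ s1' s2' s3' s4' hJbig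
  obtain ⟨pe, hpe, hP0, hpeR, hE⟩ := h1
  refine ⟨pe, hpe, hP0, fun v hv => ?_⟩
  set W : ℕ := Wf (yJ J) pe with hWdef
  set R : ℕ := RK J with hRdef
  have hWpos : 0 < W := Wf_pos _ _
  have : NeZero W := ⟨hWpos.ne'⟩
  have hWV : W ∣ W * pe := dvd_mul_right _ _
  have hVpos : 0 < W * pe := Nat.mul_pos hWpos hpe.pos
  have hWr : (0 : ℝ) < W := by exact_mod_cast hWpos
  have hφ : (0 : ℝ) < W.totient := by exact_mod_cast Nat.totient_pos.mpr hWpos
  have hyJ' : yJ J ≤ J := by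
    rw [one_mul] at hyJ
    exact_mod_cast hyJ
  have hJ1 : 1 ≤ J := by omega
  have hJR : J ≤ R := by
    have : (J : ℝ) ≤ R := hRJ.trans hRge
    exact_mod_cast this
  have hR0 : 0 < R := by omega
  have hVp : ∀ p : ℕ, p.Prime → p ≤ yJ J → p ∣ W * pe := fun p hp hpy => dvd_Wf_mul hp hpy
  have hD1 : 256 * (K + 1) ^ 2 ≤ yJ J := by omega
  have hVp1 : ∀ p : ℕ, p.Prime → p ≤ 256 * (K + 1) ^ 2 → p ∣ W * pe :=
    fun p hp hpy => hVp p hp (hpy.trans hD1)
  have hWR : ∀ p : ℕ, p.Prime → p ∣ W → p ≤ R := fun p hp h => (le_of_dvd_Wf hp h).trans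
    (hyJ'.trans hJR)
  -- the weights
  have hR' : Real.exp (16 * K * (Nat.log 2 K + 4) /
      ((Nat.totient (W * pe) : ℝ) / ((W * pe : ℕ) : ℝ))) ≤ R := by
    refine le_trans (Real.exp_le_exp.mpr ?_) hRge
    refine le_trans ?_ hlog
    have h2 := hTotJ pe hpe
    rw [← hWdef] at h2
    have hJe : (3 : ℝ) ≤ J := by
      have : 3 ≤ J := by omega
      exact_mod_cast this
    have hlogJ : 0 < Real.log J := Real.log_pos (by linarith)
    have h3 : 0 < c1 / Real.log J := by positivity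
    calc 16 * K * (Nat.log 2 K + 4) / ((Nat.totient (W * pe) : ℝ) / ((W * pe : ℕ) : ℝ)) ≤
        16 * K * (Nat.log 2 K + 4) / (c1 / Real.log J) := by gcongr
      _ = A * Real.log J := by
        rw [hA]
        field_simp
  obtain ⟨y, hy0, hy1, hya, hys, hye, hyo⟩ := hopt K hK16 (K + 1) (by omega) (by omega)
    (W * pe) hVpos (fun p hp hpk => hVp p hp (by omega)) R hR'
  obtain ⟨hg, hsum, -⟩ := Pool.Agent.Helper94.BE.params (R := R) hK1 hVp1
  have hE0 : 1 ≤ EEg (K + 1) y := by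
    have hgg : ∀ U : Finset (QT (W * pe) R × Fin K), 0 ≤ gg (K + 1) U := by
      intro U
      unfold gg
      exact Finset.prod_nonneg fun τ _ => zero_le_one.trans (hg τ.1)
    have h7 : (fun U => (y U) ^ 2 / gg (K + 1) U) (∅ : Finset (QT (W * pe) R × Fin K)) = 1 := by
      simp only
      rw [hye]
      unfold gg
      simp
    unfold EEg
    rw [← h7]
    exact Finset.single_le_sum (f := fun U => (y U) ^ 2 / gg (K + 1) U)
      (fun U _ => div_nonneg (sq_nonneg _) (hgg U)) (Finset.mem_univ _)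
  -- the shifts
  have haH : ∀ i, hx h a i ≤ yJ J := by
    intro i
    refine Fin.lastCases ?_ (fun i => ?_) i
    · rw [hx_last]; omega
    · rw [hx_castSucc]
      have := hH i
      omega
  have hinj' : Function.Injective (hx h a) := by
    intro i
    refine Fin.lastCases ?_ (fun i => ?_) i
    · intro i'
      refine Fin.lastCases ?_ (fun i' => ?_) i'
      · intro _; rfl
      · intro h2
        rw [hx_last, hx_castSucc] at h2
        have := hH i'
        omega
    · intro i'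
      refine Fin.lastCases ?_ (fun i' => ?_) i'
      · intro h2
        rw [hx_last, hx_castSucc] at h2
        have := hH i
        omega
      · intro h2
        rw [hx_castSucc, hx_castSucc] at h2
        rw [hinj h2]
  have hd' : Distinct (W * pe) R (hx h a) := param_distinct hVp hinj' haH
  have hd : Distinct (W * pe) R h := param_distinct hVp hinj (fun i => by
    have := hH i
    omega)
  have hbig : ∀ p ∈ PR (W * pe) R, ((K + 1 : ℕ) : ℝ) * (2 * 4 ^ (K + 1)) * (1 / p.totient) ≤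
      (p : ℝ) ^ (-(3 / 4) : ℝ) := fun p hp => param_big hVp (by omega) hp
  -- equidistribution
  have hE' : SEQ W pe R J ≤ 1 / 16 := by
    unfold SEQ
    convert hE
  have herr : ErrV W (W * pe) R J ≤ 1 / 16 := (ErrV_le hpe).trans hE'
  have hpsi : ∀ j : Fin K, 3 / 4 / (W.totient : ℝ) ≤ psi0 W (v + h j) R J := by
    intro j
    refine le_trans ?_ (psi0_ge (hv j) hWR)
    have h2 := (sum_chars_le (W := W) (pe := pe) (J := J) (R := R) hR0).trans hE'
    rw [div_eq_mul_inv, ← one_div, mul_comm]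
    refine mul_le_mul_of_nonneg_left ?_ (by positivity)
    linarith
  -- lower bound
  have hlow : (∑ j, EEjg (K + 1) y j) / (4 * W.totient) ≤ ∑ j, S2w W h v y j J := by
    rw [Finset.sum_div]
    refine Finset.sum_le_sum fun j _ => ?_
    refine S2w_ge hd' hg v (hv j) ?_ hy0 hya hys hbig (by push_cast; exact hsum) (hpsi j) herr
    have := hH j
    omega
  -- pointwise bound
  set L : ℝ := 4 * (R : ℝ) ^ 10 with hL
  have hL0 : 0 ≤ L := by positivity
  have hGL : ∀ m, (G0 h y m) ^ 2 ≤ L :=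
    fun m => Pool.Agent.Helper94.BE.G0_sq_le hK1 h hVp1 y hy0 hy1 hys m
  have hupp := sum_S2w_le (W := W) (v := v) hH hJ1 hHJ hGL
  obtain ⟨hS1lo, hS1up⟩ := Pool.Agent.Helper94.BE.s1 hK1 h J v hWpos hWV hVp1 hd hΩ2 hΩ1 y hy0 hy1
    hya hys
  have hom : (∑' m, if m ≡ v [MOD W] then w J m * (G0 h y m) ^ 2 else 0) =
      ∑' m, om W v J h y m := rfl
  rw [hom] at hS1lo hS1up
  set S := ∑' m, om W v J h y m with hSdef
  have hT2 : 16 * (R : ℝ) ^ 10 * ((2 / 3) ^ J * K32) * W ≤ 1 / 8 := by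
    refine le_trans ?_ (s1' pe)
    have hRr : (1 : ℝ) ≤ R := by exact_mod_cast hR0
    have h2 : (R : ℝ) ^ 10 ≤ (R : ℝ) ^ 20 := pow_le_pow_right₀ hRr (by norm_num)
    have := K32_nonneg
    gcongr
  have hratio := totient_ratio hWpos hpe (not_dvd_Wf (y := yJ J) hpe)
  have hlR : (J : ℝ) / 2000 ≤ Real.log R := by
    have h2 := Real.log_le_log (Real.exp_pos _) hRge
    rwa [Real.log_exp] at h2
  have hfin : (r : ℝ) * S ≤ ∑' m, om W v J h y m * np h m :=
    final_arith2 hJ1 hWr hφ hE0 hratio hlR hyo hlow hupp hS1up (s2' pe) hT2 hKL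
  -- lower bound for the total mass
  have hSlo : EEg (K + 1) y / (8 * W) ≤ S := by
    have h2 : EEg (K + 1) y / (4 * W) = EEg (K + 1) y / (8 * W) + EEg (K + 1) y / (8 * W) := by
      field_simp
      norm_num
    have h3 : 16 * (R : ℝ) ^ 10 * ((2 / 3) ^ J * K32) ≤ EEg (K + 1) y / (8 * W) := by
      rw [le_div_iff₀ (by positivity)]
      calc 16 * (R : ℝ) ^ 10 * ((2 / 3) ^ J * K32) * (8 * W) =
          8 * (16 * (R : ℝ) ^ 10 * ((2 / 3) ^ J * K32) * W) := by ring
        _ ≤ 8 * (1 / 8) := by gcongr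
        _ ≤ _ := by linarith
    linarith
  have hSlo1 : 1 / (8 * W) ≤ S := by
    refine le_trans ?_ hSlo
    gcongr
  have hS0 : 0 < S := lt_of_lt_of_le (by positivity) hSlo1
  refine ⟨om W v J h y, om_nonneg W v J h y, summable_om hGL, hS0, ?_, ?_, ?_, ?_, ?_⟩
  · intro m hm
    by_contra hcon
    apply hm
    unfold om
    rw [if_neg hcon]
  · intro m _
    refine (om_le hGL m).trans ?_
    have h2 := w_le_two_pow J m
    have h3 : L * w J m ≤ L * (1 / 2) ^ J := by
      refine mul_le_mul_of_nonneg_left ?_ hL0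
      rwa [one_div_pow]
    refine h3.trans ?_
    have h4 : L * (1 / 2) ^ J ≤ Real.exp (-(J : ℝ) / 10) * (1 / (8 * W)) := by
      have h5 := s3' pe
      rw [mul_one_div, le_div_iff₀ (by positivity)]
      calc L * (1 / 2) ^ J * (8 * W) = 8 * (4 * (R : ℝ) ^ 10 * (1 / 2) ^ J * W) := by
            rw [hL]; ring
        _ ≤ 8 * (Real.exp (-(J : ℝ) / 10) / 8) := by gcongr
        _ = _ := by ring
    exact h4.trans (mul_le_mul_of_nonneg_left hSlo1 (Real.exp_pos _).le)
  · refine (tail_le hL0 (om_nonneg W v J h y) (om_le hGL)).trans ?_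
    have h4 : L * ((Real.exp ((J : ℝ) / 2) + 1) * (1 / 2) ^ J +
        2 ^ J * Real.exp (-(3 * (J : ℝ) / 4)) * K98) ≤ Real.exp (-(J : ℝ) / 100) * (1 / (8 * W)) := by
      have h5 := s4' pe
      rw [mul_one_div, le_div_iff₀ (by positivity)]
      calc L * ((Real.exp ((J : ℝ) / 2) + 1) * (1 / 2) ^ J +
          2 ^ J * Real.exp (-(3 * (J : ℝ) / 4)) * K98) * (8 * W) =
          8 * (4 * (R : ℝ) ^ 10 * ((Real.exp ((J : ℝ) / 2) + 1) * (1 / 2) ^ J +
          2 ^ J * Real.exp (-(3 * (J : ℝ) / 4)) * K98) * W) := by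
            rw [hL]; ring
        _ ≤ 8 * (Real.exp (-(J : ℝ) / 100) / 8) := by gcongr
        _ = _ := by ring
    exact h4.trans (mul_le_mul_of_nonneg_left hSlo1 (Real.exp_pos _).le)
  · refine hfin.trans (le_of_eq ?_)
    rfl
  · classical
    intro j hj hjc
    have hJ2 : c < J ^ 2 := aux_lt_sq hJbig
    have hc1' : ∀ q ∈ PR (W * pe) R, J ^ 2 < q → ¬ q ∣ c := by
      intro q _ hq hdvd
      have := Nat.le_of_dvd hc hdvd
      omega
    have hc2' : ∀ q ∈ PR (W * pe) R, J ^ 2 < q → ∀ i, ¬ ((q : ℤ) ∣ j - c * h i) := by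
      intro q _ hq i hdvd
      have hne : j - c * h i ≠ 0 := sub_ne_zero.mpr (hjc i)
      have h2 := Int.le_of_dvd (abs_pos.mpr hne) ((dvd_abs _ _).mpr hdvd)
      have h3 : |j - (c : ℤ) * h i| ≤ 3 * J + c * H := by
        refine (abs_sub _ _).trans ?_
        have h4 : |(c : ℤ) * h i| ≤ c * H := by
          rw [abs_of_nonneg (by positivity)]
          have := hH i
          gcongr
        linarith
      have h5 : ((J ^ 2 : ℕ) : ℤ) < q := by exact_mod_cast hq
      have h6 : 3 * (J : ℤ) + c * H ≤ ((J ^ 2 : ℕ) : ℤ) := by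
        have h7 : 3 * J + c * H ≤ J ^ 2 := aux_three hJbig
        exact_mod_cast h7
      linarith
    have h2 := Pool.Agent.Helper94.BE.s3 K hK1 h (W * pe) W R (J ^ 2) J v c j hWpos hWV hR0 hVp1 hd
      hc1' hc2' hΩ1 y hy0 hy1 hya hys
    have h3 : ∑' m : ℕ, (if Rough J pe (c * m + j) then om W v J h y m else 0) =
        S3 W v c j (J ^ 2) J h y := by
      unfold S3
      refine tsum_congr fun m => ?_
      have hiff : Rough J pe (c * m + j) ↔
          ∀ q ∈ PR (W * pe) R, J ^ 2 < q → ¬ ((q : ℤ) ∣ c * m + j) := by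
        unfold Rough
        constructor
        · intro h4 q hq hqJ
          have h5 := mem_PR.mp hq
          exact h4 q h5.2.1 hqJ h5.1 (fun h6 => h5.2.2 (by rw [h6]; exact dvd_mul_left _ _))
        · intro h4 q hq hqJ hqR hqpe
          refine h4 q ?_ hqJ
          rw [PR_mul hpe, mem_PR]
          refine ⟨⟨hqR, hq, fun h5 => ?_⟩, hqpe⟩
          exact aux_contra hqJ (le_of_dvd_Wf hq h5) hyJ'
      unfold om
      by_cases h4 : Rough J pe (c * m + j)
      · rw [if_pos h4]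
        by_cases h5 : m ≡ v [MOD W]
        · rw [if_pos h5, if_pos ⟨h5, hiff.mp h4⟩]
        · rw [if_neg h5, if_neg (fun h6 => h5 h6.1)]
      · rw [if_neg h4, if_neg (fun h6 => h4 (hiff.mpr h6.2))]
    rw [h3, ← hSdef]
    refine h2.trans ?_
    have hJe : (3 : ℝ) ≤ J := by
      have : 3 ≤ J := by omega
      exact_mod_cast this
    have hlogJ : 0 < Real.log J := Real.log_pos (by linarith)
    have h5 := hHZJ pe hpe
    rw [← hWdef] at h5
    have h6 : 0 < c0 * ((J : ℝ) / Real.log J) := by positivity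
    have h7 : 4 * EEg (K + 1) y / W + 16 * (R : ℝ) ^ 20 * ((2 / 3) ^ J * K32) ≤ 40 * S := by
      have h8 : 16 * (R : ℝ) ^ 20 * ((2 / 3) ^ J * K32) ≤ 1 / (8 * W) := by
        rw [le_div_iff₀ (by positivity)]
        have h9 := s1' pe
        calc 16 * (R : ℝ) ^ 20 * ((2 / 3) ^ J * K32) * (8 * W) =
            8 * (16 * (R : ℝ) ^ 20 * ((2 / 3) ^ J * K32) * W) := by ring
          _ ≤ 8 * (1 / 8) := by gcongr
          _ = 1 := by norm_num
      have h9 : 4 * EEg (K + 1) y / W = 32 * (EEg (K + 1) y / (8 * W)) := by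
        field_simp
        norm_num
      rw [h9]
      linarith
    calc (4 * EEg (K + 1) y / W + 16 * (R : ℝ) ^ 20 * ((2 / 3) ^ J * K32)) /
        HZ (K + 1) (W * pe) R (J ^ 2) ≤ 40 * S / (c0 * ((J : ℝ) / Real.log J)) := by
          refine div_le_div₀ (by positivity) h7 h6 h5
      _ = 40 / c0 * (Real.log J / J) * S := by
        field_simp

end Pool.Agent.Helper11.BE
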