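import Mathlib
import Pool.Agent.Helper11.BE.SieveOf
import Pool.Agent.Helper9.BE.Optim2
import Pool.Agent.Helper94.BE.HZ
import Pool.Agent.Helper94.ZF.Final
import Pool.Agent.Helper99.MT2.EQTwo

/-!
The sieve statement, unconditionally.
-/

namespace Pool.Agent.Helper11.BE

open Pool.Agent.Helper99.MT2

theorem sieve : SieveStatement :=
  sieve_of Pool.Agent.Helper9.BE.optim2 Pool.Agent.Helper94.BE.hz Pool.Agent.Helper94.BE.tot
    (eq2_of Pool.Agent.Helper94.ZF.zf)

end Pool.Agent.Helper11.BE
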